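import Mathlib

set_option autoImplicit false

/-! Many fractions with bounded denominators in an interval. -/

namespace Pool.Agent.R485.LB

open Set Filter Topology MeasureTheory
open scoped ENNReal NNReal

theorem many_frac {u v : ℝ} (huv : u < v) (hl : v - u ≤ 1) {N : ℕ} (hN : 8 ≤ (v - u) * N) :
    ∃ T : Finset ℚ, (∀ t ∈ T, u < (t:ℝ) ∧ (t:ℝ) < v ∧ (v - u) / 48 * N ≤ t.den ∧ t.den ≤ N) ∧
      (v - u)^2 / 288 * (N:ℝ)^2 ≤ T.card := by
  classical
  have hN0 : 0 < (N:ℝ) := by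
    rcases Nat.eq_zero_or_pos N with h | h
    · rw [h] at hN
      norm_num at hN
    · exact_mod_cast h
  have hNpos : 0 < N := by exact_mod_cast hN0
  set l := v - u with hl'
  have hl0 : 0 < l := by linarith
  set η := l / 48 with hη
  have hη0 : 0 < η := by positivity
  set F : Finset ℚ := (Finset.Icc 1 N).biUnion
    (fun q : ℕ => (Finset.Icc ⌊u * q⌋ ⌈v * q⌉).image (fun a : ℤ => (a:ℚ) / (q:ℚ))) with hF
  set T : Finset ℚ := F.filter (fun t => u < (t:ℝ) ∧ (t:ℝ) < v ∧ η * N ≤ t.den ∧ t.den ≤ N) with hT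
  refine ⟨T, fun t ht => (Finset.mem_filter.1 ht).2, ?_⟩
  set ρ : ℝ := 1 / (η * N ^ 2) with hρ
  have hρ0 : 0 < ρ := by positivity
  set L : Finset ℕ := (Finset.Icc 1 N).filter (fun q : ℕ => (q:ℝ) < η * N) with hL
  have hcov : Icc (u + l / 4) (v - l / 4) ⊆ (⋃ t ∈ T, Icc ((t:ℝ) - ρ) ((t:ℝ) + ρ)) ∪
      ⋃ q ∈ L, ⋃ a ∈ Finset.Icc ⌊u * q⌋ ⌈v * q⌉,
        Icc ((a:ℝ) / q - 1 / (q * N)) ((a:ℝ) / q + 1 / (q * N)) := by
    intro x hx
    obtain ⟨t, ht1, ht2⟩ := Real.exists_rat_abs_sub_le_and_den_le x hNpos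
    have hd0 : (0:ℝ) < t.den := by exact_mod_cast t.den_pos
    have hd1 : (1:ℝ) ≤ t.den := by exact_mod_cast t.den_pos
    have hb : |x - t| ≤ 1 / ((t.den:ℝ) * N) := by
      refine ht1.trans (one_div_le_one_div_of_le (by positivity) ?_)
      nlinarith
    have hb2 : |x - t| ≤ l / 8 := by
      refine hb.trans ?_
      rw [div_le_div_iff₀ (by positivity) (by norm_num)]
      nlinarith [mul_le_mul hd1 hN (by norm_num) hd0.le]
    have h3 := abs_le.1 hb2
    have hut : u < (t:ℝ) := by linarith [hx.1, h3.2]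
    have htv : (t:ℝ) < v := by linarith [hx.2, h3.1]
    have h4 := abs_le.1 hb
    have hcast : (t:ℝ) = (t.num:ℝ) / (t.den:ℝ) := by
      conv_lhs => rw [← Rat.num_div_den t]
      push_cast
      rfl
    have hnum : t.num ∈ Finset.Icc ⌊u * t.den⌋ ⌈v * t.den⌉ := by
      rw [Finset.mem_Icc]
      rw [hcast, lt_div_iff₀ hd0] at hut
      rw [hcast, div_lt_iff₀ hd0] at htv
      constructor
      · have := (Int.floor_le (u * t.den)).trans hut.le
        exact_mod_cast this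
      · have := htv.le.trans (Int.le_ceil (v * t.den))
        exact_mod_cast this
    by_cases hq : (t.den:ℝ) < η * N
    · right
      simp only [mem_iUnion]
      refine ⟨t.den, Finset.mem_filter.2 ⟨Finset.mem_Icc.2 ⟨t.den_pos, ht2⟩, hq⟩, t.num, hnum, ?_⟩
      rw [← hcast]
      constructor <;> linarith
    · left
      push Not at hq
      simp only [mem_iUnion]
      refine ⟨t, Finset.mem_filter.2 ⟨?_, hut, htv, hq, ht2⟩, ?_⟩
      · rw [hF, Finset.mem_biUnion]
        refine ⟨t.den, Finset.mem_Icc.2 ⟨t.den_pos, ht2⟩, Finset.mem_image.2 ⟨t.num, hnum, ?_⟩⟩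
        exact Rat.num_div_den t
      · have h5 : 1 / ((t.den:ℝ) * N) ≤ ρ := by
          rw [hρ]
          apply one_div_le_one_div_of_le (by positivity)
          nlinarith
        constructor <;> linarith
  have hvol := (measure_mono (μ := (volume : Measure ℝ)) hcov).trans (measure_union_le _ _)
  have h1 : volume (⋃ t ∈ T, Icc ((t:ℝ) - ρ) ((t:ℝ) + ρ)) ≤ ENNReal.ofReal (T.card * (2 * ρ)) := by
    refine (measure_biUnion_finset_le _ _).trans ?_
    have : ∀ t ∈ T, volume (Icc ((t:ℝ) - ρ) ((t:ℝ) + ρ)) = ENNReal.ofReal (2 * ρ) := by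
      intro t _
      rw [Real.volume_Icc]
      congr 1
      ring
    rw [Finset.sum_congr rfl this, Finset.sum_const, nsmul_eq_mul, ← ENNReal.ofReal_natCast,
      ← ENNReal.ofReal_mul (by positivity)]
  have h2 : volume (⋃ q ∈ L, ⋃ a ∈ Finset.Icc ⌊u * q⌋ ⌈v * q⌉,
        Icc ((a:ℝ) / q - 1 / (q * N)) ((a:ℝ) / q + 1 / (q * N))) ≤ ENNReal.ofReal (8 * η) := by
    refine (measure_biUnion_finset_le _ _).trans ?_
    have hone : ∀ q ∈ L, volume (⋃ a ∈ Finset.Icc ⌊u * q⌋ ⌈v * q⌉,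
        Icc ((a:ℝ) / q - 1 / (q * N)) ((a:ℝ) / q + 1 / (q * N))) ≤ ENNReal.ofReal (8 / N) := by
      intro q hq
      have hq1 : 1 ≤ q := (Finset.mem_Icc.1 (Finset.mem_filter.1 hq).1).1
      have hq0 : (1:ℝ) ≤ q := by exact_mod_cast hq1
      refine (measure_biUnion_finset_le _ _).trans ?_
      have : ∀ a ∈ Finset.Icc ⌊u * q⌋ ⌈v * q⌉,
          volume (Icc ((a:ℝ) / q - 1 / (q * N)) ((a:ℝ) / q + 1 / (q * N))) =
            ENNReal.ofReal (2 / (q * N)) := by
        intro a _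
        rw [Real.volume_Icc]
        congr 1
        ring
      rw [Finset.sum_congr rfl this, Finset.sum_const, nsmul_eq_mul, ← ENNReal.ofReal_natCast,
        ← ENNReal.ofReal_mul (by positivity)]
      apply ENNReal.ofReal_le_ofReal
      have hc : (((Finset.Icc ⌊u * q⌋ ⌈v * q⌉).card : ℕ) : ℝ) ≤ 4 * q := by
        rw [Int.card_Icc]
        have h3 : (⌈v * q⌉ : ℝ) < v * q + 1 := Int.ceil_lt_add_one _
        have h4 : u * q - 1 < (⌊u * q⌋ : ℝ) := Int.sub_one_lt_floor _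
        have h5 : (0:ℤ) ≤ ⌈v * q⌉ + 1 - ⌊u * q⌋ := by
          have : (⌊u * q⌋ : ℝ) ≤ ⌈v * q⌉ :=
            (Int.floor_le _).trans ((by gcongr : u * q ≤ v * q).trans (Int.le_ceil _))
          have h6 : ⌊u * q⌋ ≤ ⌈v * q⌉ := by exact_mod_cast this
          omega
        have h6 : (((⌈v * q⌉ + 1 - ⌊u * q⌋).toNat : ℕ) : ℝ) = ((⌈v * q⌉ + 1 - ⌊u * q⌋ : ℤ) : ℝ) := by
          exact_mod_cast Int.toNat_of_nonneg h5
        rw [h6]
        push_cast
        nlinarith
      rw [mul_div_assoc', div_le_div_iff₀ (by positivity) hN0]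
      nlinarith
    refine (Finset.sum_le_sum hone).trans ?_
    rw [Finset.sum_const, nsmul_eq_mul, ← ENNReal.ofReal_natCast, ← ENNReal.ofReal_mul (by positivity)]
    apply ENNReal.ofReal_le_ofReal
    have hLc : (L.card : ℝ) ≤ η * N := by
      have h3 : L ⊆ Finset.Icc 1 ⌊η * N⌋₊ := by
        intro q hq
        rw [Finset.mem_Icc]
        exact ⟨(Finset.mem_Icc.1 (Finset.mem_filter.1 hq).1).1,
          Nat.le_floor (Finset.mem_filter.1 hq).2.le⟩
      have h4 := Finset.card_le_card h3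
      rw [Nat.card_Icc, Nat.add_sub_cancel] at h4
      exact (by exact_mod_cast h4 : (L.card:ℝ) ≤ (⌊η * N⌋₊ : ℝ)).trans (Nat.floor_le (by positivity))
    calc (L.card : ℝ) * (8 / N) ≤ (η * N) * (8 / N) := by gcongr
      _ = 8 * η := by field_simp
  have h3 := hvol.trans (add_le_add h1 h2)
  rw [Real.volume_Icc, ← ENNReal.ofReal_add (by positivity) (by positivity),
    ENNReal.ofReal_le_ofReal_iff (by positivity)] at h3
  have h4 : l / 2 ≤ T.card * (2 * ρ) + 8 * η := by linarith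
  have h5 : l / 3 ≤ T.card * (2 * ρ) := by linarith
  have h6 : (T.card : ℝ) * (2 * ρ) = T.card * 96 / (l * N^2) := by
    rw [hρ, hη]
    field_simp
    ring
  rw [h6, le_div_iff₀ (by positivity)] at h5
  nlinarith

theorem rat_gap {p p' : ℚ} {N : ℕ} (h : p < p') (hp : p.den ≤ N) (hp' : p'.den ≤ N) :
    1 / (N:ℝ)^2 ≤ (p':ℝ) - p := by
  have hd0 : (0:ℝ) < p.den := by exact_mod_cast p.den_pos
  have hd0' : (0:ℝ) < p'.den := by exact_mod_cast p'.den_pos
  have h1 : (p:ℝ) = (p.num:ℝ) / (p.den:ℝ) := by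
    conv_lhs => rw [← Rat.num_div_den p]
    push_cast
    rfl
  have h2 : (p':ℝ) = (p'.num:ℝ) / (p'.den:ℝ) := by
    conv_lhs => rw [← Rat.num_div_den p']
    push_cast
    rfl
  have h3 : (p:ℝ) < p' := by exact_mod_cast h
  have h4 : (p':ℝ) - p = ((p'.num * p.den - p.num * p'.den : ℤ) : ℝ) / (p.den * p'.den) := by
    rw [h1, h2]
    push_cast
    field_simp
  have h5 : (0:ℤ) < p'.num * p.den - p.num * p'.den := by
    have h6 : 0 < (p':ℝ) - p := by linarith
    rw [h4, div_pos_iff_of_pos_right (by positivity)] at h6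
    exact_mod_cast h6
  have h6 : (1:ℝ) ≤ ((p'.num * p.den - p.num * p'.den : ℤ) : ℝ) := by exact_mod_cast h5
  rw [h4]
  have hpN : (p.den:ℝ) ≤ N := by exact_mod_cast hp
  have hpN' : (p'.den:ℝ) ≤ N := by exact_mod_cast hp'
  have hN : (0:ℝ) < N := hd0.trans_le hpN
  rw [div_le_div_iff₀ (by positivity) (by positivity), one_mul]
  calc (p.den:ℝ) * p'.den ≤ N * N := by gcongr
    _ = 1 * (N:ℝ)^2 := by ring
    _ ≤ _ := by gcongr

/-- Enumeration of the fractions. -/
theorem enum_frac {T : Finset ℚ} {N M : ℕ} (hT : ∀ t ∈ T, t.den ≤ N) (hM : M ≤ T.card) :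
    ∃ τ : ℕ → ℚ, (∀ i < M, τ i ∈ T) ∧
      ∀ i i', i < i' → i' < M → ((i':ℝ) - i) * (1 / (N:ℝ)^2) ≤ (τ i' : ℝ) - τ i := by
  classical
  rcases Nat.eq_zero_or_pos M with h0 | h0
  · exact ⟨fun _ => 0, fun i hi => by omega, fun i i' _ h => by omega⟩
  have hcard : (Finset.univ : Finset (Fin M)).card ≤ T.card := by simpa using hM
  set φ := T.orderEmbOfCardLe hM with hφ
  refine ⟨fun i => if h : i < M then φ ⟨i, h⟩ else 0, ?_, ?_⟩
  · intro i hi
    simp only [dif_pos hi]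
    exact Finset.orderEmbOfCardLe_mem T hM _
  · have step : ∀ d i : ℕ, i + d < M → ∀ (h1 : i < M) (h2 : i + d < M),
        (d:ℝ) * (1 / (N:ℝ)^2) ≤ ((φ ⟨i + d, h2⟩ : ℚ) : ℝ) - ((φ ⟨i, h1⟩ : ℚ) : ℝ) := by
      intro d
      induction d with
      | zero =>
        intro i _ h1 h2
        simp
      | succ d ih =>
        intro i h h1 h2
        have h3 := ih i (by omega) h1 (by omega)
        have h4 : φ ⟨i + d, by omega⟩ < φ ⟨i + (d + 1), h2⟩ := by
          apply φ.strictMono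
          exact Fin.mk_lt_mk.2 (by omega)
        have h5 := rat_gap h4 (hT _ (Finset.orderEmbOfCardLe_mem T hM _))
          (hT _ (Finset.orderEmbOfCardLe_mem T hM _))
        push_cast
        linarith
    intro i i' hii hi'
    have hi : i < M := by omega
    simp only [dif_pos hi, dif_pos hi']
    obtain ⟨d, rfl⟩ := Nat.exists_eq_add_of_lt hii
    have := step (d + 1) i (by omega) hi (by omega)
    push_cast at this ⊢
    have e1 : (i:ℝ) + d + 1 - i = d + 1 := by ring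
    rw [e1]
    exact this

end Pool.Agent.R485.LB
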