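import Pool.Agent.R485.RG.Cant

set_option autoImplicit false

/-! Hausdorff measures of Cantor sets for slowly varying gauge functions. -/

namespace Pool.Agent.R485.LB

open Set Filter Topology MeasureTheory Pool.Agent.R485.RG
open scoped ENNReal NNReal

/-- The Hausdorff measure of a Cantor set is infinite. -/
theorem cantor_gauge {e : ℕ → ℕ} (he : ∀ M : ℕ, ∃ k, M ≤ ES e k) (I : ℕ → ℕ → Set ℝ)
    (hcomp : ∀ k j, j < 2^(ES e k) → IsCompact (I k j) ∧ (I k j).Nonempty)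
    (hsub : ∀ k j i, j < 2^(ES e k) → i < 2^(e k) → I (k+1) (2^(e k) * j + i) ⊆ I k j)
    (s : ℕ → ℝ) (hs : ∀ k, 0 < s k)
    (hsep : ∀ k j i i', j < 2^(ES e k) → i < i' → i' < 2^(e k) →
      ∀ x ∈ I (k+1) (2^(e k) * j + i), ∀ y ∈ I (k+1) (2^(e k) * j + i'),
        ((i' : ℝ) - i) * s k ≤ y - x)
    (f : ℝ → ℝ) {r₀ : ℝ} (hr₀ : 0 < r₀) (hf0 : ∀ r, 0 < r → r ≤ r₀ → 0 < f r)
    (hmono : ∀ r R, 0 < r → r ≤ R → R ≤ r₀ → f r ≤ f R)
    (hdoub : ∀ r R, 0 < r → r ≤ R → R ≤ r₀ → f R * r ≤ f r * R)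
    (hR : ∀ k, 2^(e k) * s k ≤ r₀)
    (hcond : ∀ C : ℝ, 0 < C → ∀ᶠ k in atTop, 2 ≤ C * 2^(ES e k) * f (2^(e k) * s k)) :
    Measure.mkMetric (fun d : ℝ≥0∞ => ENNReal.ofReal (f d.toReal))
      {x | ∀ k, ∃ j < 2^(ES e k), x ∈ I k j} = ⊤ := by
  classical
  have hex : ∀ τ : ℝ, τ ∈ Ico (0:ℝ) 1 → ∃ x : ℝ, ∀ k, x ∈ I k (NN e τ k) := by
    intro τ hτ
    have h := IsCompact.nonempty_iInter_of_sequence_nonempty_isCompact_isClosed
      (fun k => I k (NN e τ k)) (fun k => by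
        rw [NN_succ e τ k]
        exact hsub k _ _ (NN_lt e hτ k) (Nat.mod_lt _ (by positivity)))
      (fun k => (hcomp k _ (NN_lt e hτ k)).2) (hcomp 0 _ (NN_lt e hτ 0)).1
      (fun k => (hcomp k _ (NN_lt e hτ k)).1.isClosed)
    obtain ⟨x, hx⟩ := h
    exact ⟨x, fun k => mem_iInter.1 hx k⟩
  choose! X hX using hex
  -- the key estimate
  have key : ∀ C : ℝ, 0 < C → ∃ ε : ℝ, 0 < ε ∧ ε ≤ r₀ ∧ ∀ τ ∈ Ico (0:ℝ) 1, ∀ τ' ∈ Ico (0:ℝ) 1,
      τ < τ' → 0 < X τ' - X τ ∧ (X τ' - X τ ≤ ε → τ' - τ ≤ C * f (X τ' - X τ)) := by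
    intro C hC
    obtain ⟨K, hK⟩ := eventually_atTop.1 (hcond C hC)
    obtain ⟨ε, hε0, hεr, hε⟩ : ∃ ε : ℝ, 0 < ε ∧ ε ≤ r₀ ∧ ∀ k < K, ε < s k := by
      clear hK
      induction K with
      | zero => exact ⟨r₀, hr₀, le_rfl, fun k hk => absurd hk (Nat.not_lt_zero _)⟩
      | succ K ih =>
        obtain ⟨ε, h1, h2, h3⟩ := ih
        refine ⟨min ε (s K / 2), lt_min h1 (by linarith [hs K]), (min_le_left _ _).trans h2, ?_⟩
        intro k hk
        rcases Nat.lt_succ_iff_lt_or_eq.1 hk with h | h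
        · exact (min_le_left _ _).trans_lt (h3 k h)
        · rw [h]
          exact (min_le_right _ _).trans_lt (by linarith [hs K])
    refine ⟨ε, hε0, hεr, ?_⟩
    intro τ hτ τ' hτ' hlt
    have hne : ∃ k, NN e τ k ≠ NN e τ' k := by
      by_contra hcon
      push Not at hcon
      obtain ⟨M, hM⟩ := exists_nat_gt (1 / (τ' - τ))
      obtain ⟨k, hk⟩ := he M
      have hp : (0:ℝ) < 2^(ES e k) := by positivity
      have h1 : (NN e τ' k : ℝ) ≤ 2^(ES e k) * τ' :=
        Nat.floor_le (mul_nonneg (by positivity) hτ'.1)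
      have h2 : 2^(ES e k) * τ < (NN e τ k : ℝ) + 1 := Nat.lt_floor_add_one _
      have h1' : 2^(ES e k) * τ' < (NN e τ' k : ℝ) + 1 := Nat.lt_floor_add_one _
      have h2' : (NN e τ k : ℝ) ≤ 2^(ES e k) * τ := Nat.floor_le (mul_nonneg (by positivity) hτ.1)
      rw [hcon k] at h2'
      have h3 : 2^(ES e k) * (τ' - τ) < 1 := by nlinarith
      have h4 : (M : ℝ) < 2^(ES e k) := by
        calc (M : ℝ) ≤ (ES e k : ℝ) := by exact_mod_cast hk
          _ < 2^(ES e k) := by exact_mod_cast Nat.lt_two_pow_self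
      have h5 : 0 < τ' - τ := by linarith
      rw [div_lt_iff₀ h5] at hM
      nlinarith
    obtain ⟨k, hk1, hk2⟩ : ∃ k, NN e τ (k+1) ≠ NN e τ' (k+1) ∧ NN e τ k = NN e τ' k := by
      have h1 := Nat.find_spec hne
      have h2 : Nat.find hne ≠ 0 := by
        intro h0
        rw [h0, NN_zero e hτ, NN_zero e hτ'] at h1
        exact h1 rfl
      obtain ⟨k, hk⟩ := Nat.exists_eq_succ_of_ne_zero h2
      refine ⟨k, by rw [hk] at h1; exact h1, ?_⟩
      have := Nat.find_min hne (m := k) (by omega)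
      push Not at this
      exact this
    set j := NN e τ k with hj
    set i := NN e τ (k+1) % 2^(e k) with hi
    set i' := NN e τ' (k+1) % 2^(e k) with hi'
    have e1 : NN e τ (k+1) = 2^(e k) * j + i := NN_succ e τ k
    have e2 : NN e τ' (k+1) = 2^(e k) * j + i' := by rw [hk2]; exact NN_succ e τ' k
    have hii : i < i' := by
      have h1 := NN_mono e hlt.le (k+1)
      have h2 : NN e τ (k+1) < NN e τ' (k+1) := lt_of_le_of_ne h1 hk1
      rw [e1, e2] at h2
      omega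
    have hi2 : i' < 2^(e k) := Nat.mod_lt _ (by positivity)
    have hjl : j < 2^(ES e k) := NN_lt e hτ k
    have hx1 := hX τ hτ (k+1)
    have hx2 := hX τ' hτ' (k+1)
    rw [e1] at hx1
    rw [e2] at hx2
    have hd := hsep k j i i' hjl hii hi2 _ hx1 _ hx2
    set m : ℝ := (i' : ℝ) - i with hm
    have hm1 : 1 ≤ m := by
      have : ((i + 1 : ℕ) : ℝ) ≤ i' := by exact_mod_cast hii
      push_cast at this
      linarith
    have hm2 : m ≤ 2^(e k) := by
      have h1 : (i' : ℝ) < 2^(e k) := by exact_mod_cast hi2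
      have h2 : (0:ℝ) ≤ i := Nat.cast_nonneg _
      linarith
    have hms : 0 < m * s k := mul_pos (by linarith) (hs k)
    refine ⟨lt_of_lt_of_le hms hd, fun hle => ?_⟩
    have hkK : K ≤ k := by
      by_contra hcon
      push Not at hcon
      have h1 := hε k hcon
      have h2 : s k ≤ m * s k := le_mul_of_one_le_left (hs k).le hm1
      linarith
    have hc := hK k hkK
    have hp : (0:ℝ) < 2^(ES e (k+1)) := by positivity
    have h1 : 2^(ES e (k+1)) * τ' < (NN e τ' (k+1) : ℝ) + 1 := Nat.lt_floor_add_one _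
    have h2 : (NN e τ (k+1) : ℝ) ≤ 2^(ES e (k+1)) * τ :=
      Nat.floor_le (mul_nonneg (by positivity) hτ.1)
    rw [e2] at h1
    rw [e1] at h2
    push_cast at h1 h2
    have h3 : 2^(ES e (k+1)) * (τ' - τ) ≤ 2 * m := by
      rw [hm] at hm1 ⊢
      nlinarith
    rw [ES_succ, pow_add] at h3
    have hmR : m * s k ≤ 2^(e k) * s k := mul_le_mul_of_nonneg_right hm2 (hs k).le
    have h6 := hdoub (m * s k) (2^(e k) * s k) hms hmR (hR k)
    have h7 : f (2^(e k) * s k) * m ≤ f (m * s k) * 2^(e k) := by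
      have : s k * (f (2^(e k) * s k) * m) ≤ s k * (f (m * s k) * 2^(e k)) := by
        calc s k * (f (2^(e k) * s k) * m) = f (2^(e k) * s k) * (m * s k) := by ring
          _ ≤ f (m * s k) * (2^(e k) * s k) := h6
          _ = _ := by ring
      exact le_of_mul_le_mul_left this (hs k)
    have hfm : f (m * s k) ≤ f (X τ' - X τ) := hmono _ _ hms hd (hle.trans hεr)
    have hE : (0:ℝ) < 2^(ES e k) := by positivity
    have he' : (0:ℝ) < 2^(e k) := by positivity
    have hfR : 0 < f (2^(e k) * s k) := hf0 _ (mul_pos he' (hs k)) (hR k)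
    have hm0 : 0 < m := by linarith
    have h8 : 2^(ES e k) * 2^(e k) * (τ' - τ) ≤
        2^(ES e k) * 2^(e k) * (C * f (m * s k)) := by
      calc 2^(ES e k) * 2^(e k) * (τ' - τ) ≤ 2 * m := h3
        _ ≤ (C * 2^(ES e k) * f (2^(e k) * s k)) * m := mul_le_mul_of_nonneg_right hc hm0.le
        _ = C * 2^(ES e k) * (f (2^(e k) * s k) * m) := by ring
        _ ≤ C * 2^(ES e k) * (f (m * s k) * 2^(e k)) :=
            mul_le_mul_of_nonneg_left h7 (by positivity)
        _ = _ := by ring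
    have h9 : τ' - τ ≤ C * f (m * s k) := le_of_mul_le_mul_left h8 (by positivity)
    exact h9.trans (mul_le_mul_of_nonneg_left hfm hC.le)
  have hXK : ∀ τ ∈ Ico (0:ℝ) 1, X τ ∈ {x | ∀ k, ∃ j < 2^(ES e k), x ∈ I k j} :=
    fun τ hτ k => ⟨NN e τ k, NN_lt e hτ k, hX τ hτ k⟩
  set K := {x | ∀ k, ∃ j < 2^(ES e k), x ∈ I k j} with hK
  have low : ∀ C : ℝ, 0 < C → 1 ≤ ENNReal.ofReal C *
      Measure.mkMetric (fun d : ℝ≥0∞ => ENNReal.ofReal (f d.toReal)) K := by
    intro C hC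
    obtain ⟨ε, hε0, hεr, hkey⟩ := key C hC
    rw [Measure.mkMetric_apply]
    have h1 : ENNReal.ofReal C * (⨅ (t : ℕ → Set ℝ) (_ : K ⊆ iUnion t)
        (_ : ∀ n, Metric.ediam (t n) ≤ ENNReal.ofReal ε),
        ∑' n, ⨆ _ : (t n).Nonempty, ENNReal.ofReal (f (Metric.ediam (t n)).toReal)) ≤
        ENNReal.ofReal C * (⨆ (r : ℝ≥0∞) (_ : 0 < r), ⨅ (t : ℕ → Set ℝ) (_ : K ⊆ iUnion t)
        (_ : ∀ n, Metric.ediam (t n) ≤ r),
        ∑' n, ⨆ _ : (t n).Nonempty, ENNReal.ofReal (f (Metric.ediam (t n)).toReal)) := by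
      gcongr
      exact le_iSup₂_of_le (ENNReal.ofReal ε) (by simpa using hε0) le_rfl
    refine le_trans ?_ h1
    have hC' : ENNReal.ofReal C ≠ 0 := by simpa using hC
    rw [mul_comm, ← ENNReal.div_le_iff_le_mul (Or.inl hC') (Or.inl ENNReal.ofReal_ne_top)]
    refine le_iInf₂ fun t ht => le_iInf fun htd => ?_
    rw [ENNReal.div_le_iff_le_mul (Or.inl hC') (Or.inl ENNReal.ofReal_ne_top), mul_comm,
      ← ENNReal.tsum_mul_left]
    have hcov : Ico (0:ℝ) 1 ⊆ ⋃ n, (Ico (0:ℝ) 1 ∩ X ⁻¹' (t n)) := by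
      intro τ hτ
      obtain ⟨n, hn⟩ := mem_iUnion.1 (ht (hXK τ hτ))
      exact mem_iUnion.2 ⟨n, hτ, hn⟩
    have hv : (1 : ℝ≥0∞) = volume (Ico (0:ℝ) 1) := by rw [Real.volume_Ico]; norm_num
    rw [hv]
    refine (measure_mono hcov).trans ((measure_iUnion_le _).trans (ENNReal.tsum_le_tsum fun n => ?_))
    by_cases hne : (t n).Nonempty
    · rw [iSup_pos hne]
      refine (Real.volume_le_diam _).trans (Metric.ediam_le ?_)
      have hfin : Metric.ediam (t n) ≠ ⊤ := ne_top_of_le_ne_top ENNReal.ofReal_ne_top (htd n)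
      have hdε : (Metric.ediam (t n)).toReal ≤ ε := by
        have := ENNReal.toReal_mono ENNReal.ofReal_ne_top (htd n)
        rwa [ENNReal.toReal_ofReal hε0.le] at this
      have gen : ∀ a ∈ Ico (0:ℝ) 1 ∩ X ⁻¹' (t n), ∀ b ∈ Ico (0:ℝ) 1 ∩ X ⁻¹' (t n), a < b →
          edist a b ≤ ENNReal.ofReal C * ENNReal.ofReal (f (Metric.ediam (t n)).toReal) := by
        intro a ha b hb hab
        obtain ⟨h2, h3⟩ := hkey a ha.1 b hb.1 hab
        have h4 : X b - X a ≤ (Metric.ediam (t n)).toReal := by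
          have h5 : edist (X b) (X a) ≤ Metric.ediam (t n) := Metric.edist_le_ediam_of_mem hb.2 ha.2
          have h6 := ENNReal.toReal_mono hfin h5
          rw [edist_dist, ENNReal.toReal_ofReal dist_nonneg, Real.dist_eq, abs_of_pos h2] at h6
          exact h6
        have h5 := h3 (h4.trans hdε)
        have h6 := hmono _ _ h2 h4 (hdε.trans hεr)
        rw [edist_dist, Real.dist_eq, abs_sub_comm, abs_of_pos (by linarith),
          ← ENNReal.ofReal_mul hC.le]
        exact ENNReal.ofReal_le_ofReal (h5.trans (mul_le_mul_of_nonneg_left h6 hC.le))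
      intro a ha b hb
      rcases lt_trichotomy a b with h | h | h
      · exact gen a ha b hb h
      · rw [h, edist_self]
        exact bot_le
      · rw [edist_comm]
        exact gen b hb a ha h
    · rw [not_nonempty_iff_eq_empty] at hne
      rw [hne]
      simp
  by_contra hcon
  set H := Measure.mkMetric (fun d : ℝ≥0∞ => ENNReal.ofReal (f d.toReal)) K with hH
  have h1 : 0 < 1 / (2 * (H.toReal + 1)) := by
    have := ENNReal.toReal_nonneg (a := H)
    positivity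
  have h3 := ENNReal.toReal_nonneg (a := H)
  have h2 := low _ h1
  have h4 : ENNReal.ofReal (1 / (2 * (H.toReal + 1))) * H =
      ENNReal.ofReal (1 / (2 * (H.toReal + 1)) * H.toReal) := by
    rw [ENNReal.ofReal_mul h1.le, ENNReal.ofReal_toReal hcon]
  rw [h4, ENNReal.one_le_ofReal] at h2
  rw [div_mul_eq_mul_div, one_mul, le_div_iff₀ (by positivity)] at h2
  linarith

/-- The logarithmic gauge. -/
noncomputable def lg (σ : ℝ) (r : ℝ) : ℝ := (-Real.log r) ^ (-σ)

lemma lg_pos (σ : ℝ) {r : ℝ} (h0 : 0 < r) (h1 : r < 1) : 0 < lg σ r :=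
  Real.rpow_pos_of_pos (by linarith [Real.log_neg h0 h1]) _

lemma lg_mono {σ : ℝ} (hσ : 0 ≤ σ) {r R : ℝ} (h0 : 0 < r) (h : r ≤ R) (h1 : R < 1) :
    lg σ r ≤ lg σ R := by
  have h2 := Real.log_neg (h0.trans_le h) h1
  have h3 := Real.log_le_log h0 h
  exact Real.rpow_le_rpow_of_nonpos (by linarith) (by linarith) (by linarith)

lemma lg_doub {σ : ℝ} (hσ : 0 < σ) {r R : ℝ} (h0 : 0 < r) (h : r ≤ R) (h1 : R ≤ Real.exp (-σ)) :
    lg σ R * r ≤ lg σ r * R := by
  have hR0 : 0 < R := h0.trans_le h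
  have hu : σ ≤ -Real.log R := by
    have := Real.log_le_log hR0 h1
    rw [Real.log_exp] at this
    linarith
  set u := -Real.log R with hu'
  set v := -Real.log r with hv'
  have huv : u ≤ v := by
    have := Real.log_le_log h0 h
    linarith
  have hu0 : 0 < u := hσ.trans_le hu
  have hv0 : 0 < v := hu0.trans_le huv
  have hr : r = Real.exp (-v) := by rw [hv', neg_neg, Real.exp_log h0]
  have hR : R = Real.exp (-u) := by rw [hu', neg_neg, Real.exp_log hR0]
  have h2 : (v / u) ^ σ ≤ Real.exp (v - u) := by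
    have h3 : v / u ≤ Real.exp ((v - u) / u) := by
      have := Real.add_one_le_exp ((v - u) / u)
      have h4 : (v - u) / u + 1 = v / u := by field_simp; ring
      linarith
    calc (v / u) ^ σ ≤ (Real.exp ((v - u) / u)) ^ σ :=
          Real.rpow_le_rpow (by positivity) h3 hσ.le
      _ = Real.exp ((v - u) / u * σ) := by rw [← Real.exp_mul]
      _ ≤ Real.exp (v - u) := by
          apply Real.exp_le_exp.2
          rw [div_mul_eq_mul_div, div_le_iff₀ hu0]
          exact mul_le_mul_of_nonneg_left hu (by linarith)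
  unfold lg
  rw [← hu', ← hv', Real.rpow_neg hu0.le, Real.rpow_neg hv0.le]
  rw [Real.div_rpow hv0.le hu0.le, Real.exp_sub] at h2
  have hup : 0 < u ^ σ := Real.rpow_pos_of_pos hu0 _
  have hvp : 0 < v ^ σ := Real.rpow_pos_of_pos hv0 _
  rw [div_le_div_iff₀ hup (Real.exp_pos _)] at h2
  have hr' : Real.exp v = r⁻¹ := by rw [← Real.exp_log h0, ← Real.exp_neg]
  have hR' : Real.exp u = R⁻¹ := by rw [← Real.exp_log hR0, ← Real.exp_neg]
  rw [hr', hR'] at h2
  rw [← div_eq_inv_mul, ← div_eq_inv_mul, div_le_div_iff₀ hup hvp]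
  have h3 : v ^ σ * R⁻¹ * (r * R) ≤ r⁻¹ * u ^ σ * (r * R) :=
    mul_le_mul_of_nonneg_right h2 (by positivity)
  have h4 : v ^ σ * R⁻¹ * (r * R) = r * v ^ σ := by field_simp
  have h5 : r⁻¹ * u ^ σ * (r * R) = R * u ^ σ := by field_simp
  rw [h4, h5] at h3
  exact h3

end Pool.Agent.R485.LB
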