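import Pool.Agent.R485.LB.Gauge
import Pool.Agent.R485.LB.Frac

set_option autoImplicit false

/-! Cantor sets of numbers with powers very close to powers of a given number. -/

namespace Pool.Agent.R485.LB

open Set Filter Topology MeasureTheory Pool.Agent.R485.RG
open scoped ENNReal NNReal

/-- The choice of the size of the denominators. -/
lemma ev_all {B Lb r κ σ : ℝ} (hB : 1 < B) (hLb : 0 < Lb) (hr : 0 < r) (hκ : 0 < κ)
    (hσ : 0 < σ) (hσ2 : σ < 2) (k : ℕ) :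
    ∀ᶠ N : ℕ in atTop, 1 ≤ N ∧ 8 ≤ r / (B * Lb) * N ∧ 2 ≤ (r / (B * Lb)) ^ 2 / 288 * (N:ℝ)^2 ∧
      1 / ((k + 1) * N * B ^ N) ≤ r / 2 ∧
      2 * (1 / ((k + 1) * N * B ^ N)) ≤ Lb / (2 * (N:ℝ)^2) ∧
      (k:ℝ) ≤ r / (B * Lb) / 48 * N ∧
      κ * (1 / ((k + 1) * N * B ^ N)) ^ 2 < 1 ∧
      2 * ((k:ℝ) + 1) ≤ (r / (B * Lb)) ^ 2 / 288 * (N:ℝ)^2 / 2 *
        lg σ (κ * (1 / ((k + 1) * N * B ^ N)) ^ 2) := by
  have hB0 : 0 < B := by linarith
  have hl : 0 < r / (B * Lb) := by positivity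
  set l := r / (B * Lb) with hldef
  have hcast : Tendsto (fun N : ℕ => (N:ℝ)) atTop atTop := tendsto_natCast_atTop_atTop
  have hpow : Tendsto (fun N : ℕ => B ^ N) atTop atTop := tendsto_pow_atTop_atTop_of_one_lt hB
  have e1 := eventually_ge_atTop (α := ℕ) 1
  have e2 : ∀ᶠ N : ℕ in atTop, 8 ≤ l * N := (hcast.const_mul_atTop hl).eventually_ge_atTop 8
  have e3 : ∀ᶠ N : ℕ in atTop, 2 ≤ l ^ 2 / 288 * (N:ℝ)^2 :=
    (((tendsto_pow_atTop two_ne_zero).comp hcast).const_mul_atTop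
      (by positivity : 0 < l ^ 2 / 288)).eventually_ge_atTop 2
  have e4 : ∀ᶠ N : ℕ in atTop, 2 / r ≤ B ^ N := hpow.eventually_ge_atTop _
  have e4' : ∀ᶠ N : ℕ in atTop, κ + 1 ≤ B ^ N := hpow.eventually_ge_atTop _
  have e5 : ∀ᶠ N : ℕ in atTop, (N:ℝ)^2 / B ^ N < Lb / 4 :=
    (tendsto_pow_const_div_const_pow_of_one_lt 2 hB).eventually_lt_const (by positivity)
  have e6 : ∀ᶠ N : ℕ in atTop, (k:ℝ) ≤ l / 48 * N :=
    (hcast.const_mul_atTop (by positivity : 0 < l / 48)).eventually_ge_atTop _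
  set K : ℝ := |Real.log κ| + 2 * Real.log (k + 1) + 2 + 2 * Real.log B with hK
  have hlk : 0 ≤ Real.log ((k:ℝ) + 1) := Real.log_nonneg (by linarith [(Nat.cast_nonneg k : (0:ℝ) ≤ k)])
  have hlB : 0 < Real.log B := Real.log_pos hB
  have hK0 : 0 < K := by positivity
  have e7 : ∀ᶠ N : ℕ in atTop, 2 * ((k:ℝ) + 1) ≤ l ^ 2 / 576 * K ^ (-σ) * (N:ℝ) ^ (2 - σ) :=
    (((tendsto_rpow_atTop (by linarith : 0 < 2 - σ)).comp hcast).const_mul_atTop
      (by positivity : 0 < l ^ 2 / 576 * K ^ (-σ))).eventually_ge_atTop _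
  filter_upwards [e1, e2, e3, e4, e4', e5, e6, e7] with N h1 h2 h3 h4 h4' h5 h6 h7
  have hN : (1:ℝ) ≤ N := by exact_mod_cast h1
  have hN0 : (0:ℝ) < N := by linarith
  have hBN : 0 < B ^ N := by positivity
  have hk1 : (1:ℝ) ≤ k + 1 := by linarith [(Nat.cast_nonneg k : (0:ℝ) ≤ k)]
  set ρ : ℝ := 1 / ((k + 1) * N * B ^ N) with hρ
  have hρ0 : 0 < ρ := by positivity
  have hρ1 : ρ ≤ 1 / B ^ N := by
    rw [hρ]
    apply one_div_le_one_div_of_le hBN
    have : 1 * 1 * B ^ N ≤ ((k:ℝ) + 1) * N * B ^ N := by gcongr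
    linarith
  have hρ2 : ρ * (κ + 1) ≤ 1 := by
    calc ρ * (κ + 1) ≤ 1 / B ^ N * (B ^ N) := by gcongr
      _ = 1 := by field_simp
  have hρ3 : ρ ≤ 1 := by nlinarith
  have hc1 : κ * ρ ^ 2 < 1 := by nlinarith
  have hc0 : 0 < κ * ρ ^ 2 := by positivity
  refine ⟨h1, h2, h3, ?_, ?_, h6, hc1, ?_⟩
  · refine hρ1.trans ?_
    rw [div_le_iff₀ hr] at h4
    rw [div_le_div_iff₀ hBN (by norm_num)]
    linarith
  · rw [div_lt_div_iff₀ hBN (by norm_num)] at h5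
    have : 2 * ρ ≤ 2 * (1 / B ^ N) := by linarith
    refine this.trans ?_
    rw [mul_one_div, div_le_div_iff₀ hBN (by positivity)]
    nlinarith
  · refine h7.trans ?_
    have hlog : -Real.log (κ * ρ ^ 2) ≤ K * N := by
      rw [Real.log_mul hκ.ne' (by positivity), Real.log_pow, hρ, one_div, Real.log_inv,
        Real.log_mul (by positivity) hBN.ne', Real.log_mul (by positivity) hN0.ne', Real.log_pow]
      have h8 : Real.log N ≤ N := (Real.log_le_sub_one_of_pos hN0).trans (by linarith)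
      have h9 := neg_abs_le (Real.log κ)
      have h10 : |Real.log κ| ≤ |Real.log κ| * N := le_mul_of_one_le_right (abs_nonneg _) hN
      have h11 : Real.log ((k:ℝ) + 1) ≤ Real.log ((k:ℝ) + 1) * N := le_mul_of_one_le_right hlk hN
      rw [hK]
      push_cast
      nlinarith
    have hlog0 : 0 < -Real.log (κ * ρ ^ 2) := by linarith [Real.log_neg hc0 hc1]
    have hlg : (K * N) ^ (-σ) ≤ lg σ (κ * ρ ^ 2) :=
      Real.rpow_le_rpow_of_nonpos hlog0 hlog (by linarith)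
    calc l ^ 2 / 576 * K ^ (-σ) * (N:ℝ) ^ (2 - σ)
        = l ^ 2 / 288 * (N:ℝ)^2 / 2 * (K * N) ^ (-σ) := by
          rw [Real.mul_rpow hK0.le hN0.le]
          have : (N:ℝ) ^ (2 - σ) = (N:ℝ)^2 * (N:ℝ) ^ (-σ) := by
            rw [sub_eq_add_neg, Real.rpow_add hN0, Real.rpow_two]
          rw [this]
          ring
      _ ≤ _ := by gcongr

/-- The intervals of a stage. -/
def Good (A B r₁ : ℝ) (S : ℕ × (ℕ → ℝ) × ℝ) : Prop :=
  0 < S.2.2 ∧ S.2.2 ≤ r₁ ∧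
    ∀ j < 2 ^ S.1, Icc (S.2.1 j - S.2.2) (S.2.1 j + S.2.2) ⊆ Ioo A B

theorem step {b A B r₁ σ : ℝ} (hb : 1 < b) (hA : 1 ≤ A) (hAB : A < B) (hσ : 0 < σ) (hσ2 : σ < 2)
    (hr₁ : r₁ ≤ Real.log b) (k : ℕ) (S : ℕ × (ℕ → ℝ) × ℝ) (hS : Good A B r₁ S) :
    ∃ (e : ℕ) (s : ℝ) (x' : ℕ → ℝ) (r' : ℝ), Good A B r₁ (S.1 + e, x', r') ∧ 1 ≤ e ∧ 0 < s ∧
      (∀ j i, j < 2 ^ S.1 → i < 2 ^ e → Icc (x' (2 ^ e * j + i) - r') (x' (2 ^ e * j + i) + r') ⊆
        Icc (S.2.1 j - S.2.2) (S.2.1 j + S.2.2)) ∧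
      (∀ j i i', j < 2 ^ S.1 → i < i' → i' < 2 ^ e →
        ∀ y ∈ Icc (x' (2 ^ e * j + i) - r') (x' (2 ^ e * j + i) + r'),
        ∀ y' ∈ Icc (x' (2 ^ e * j + i') - r') (x' (2 ^ e * j + i') + r'),
          ((i':ℝ) - i) * s ≤ y' - y) ∧
      1 / (1152 * B ^ 2 * Real.log b) * S.2.2 ^ 2 ≤ 2 ^ e * s ∧ 2 ^ e * s ≤ 4 * S.2.2 ∧
      2 * ((k:ℝ) + 1) ≤ 2 ^ e * lg σ (1 / (1152 * B ^ 2 * Real.log b) * r' ^ 2) ∧
      (∀ j i, j < 2 ^ S.1 → i < 2 ^ e → ∃ n m : ℕ, k ≤ n ∧ 1 ≤ n ∧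
        ∀ a ∈ Icc (x' (2 ^ e * j + i) - r') (x' (2 ^ e * j + i) + r'),
          |a ^ n - b ^ m| ≤ 1 / (k + 1)) := by
  obtain ⟨E, x, r⟩ := S
  obtain ⟨hr0, hrr, hsub⟩ := hS
  simp only at hr0 hrr hsub ⊢
  have hLb : 0 < Real.log b := Real.log_pos hb
  set Lb := Real.log b with hLbdef
  have hB : 1 < B := by linarith
  set κ : ℝ := 1 / (1152 * B ^ 2 * Lb) with hκdef
  have hκ : 0 < κ := by positivity
  obtain ⟨N, hN1, hN8, hN2, hNr, hNs, hNk, hNκ, hNg⟩ :=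
    (ev_all hB hLb hr0 hκ hσ hσ2 k).exists
  set l := r / (B * Lb) with hl
  have hN0 : (0:ℝ) < N := by
    have : (1:ℝ) ≤ N := by exact_mod_cast hN1
    linarith
  set ρ : ℝ := 1 / ((k + 1) * N * B ^ N) with hρ
  have hρ0 : 0 < ρ := by positivity
  set W := l ^ 2 / 288 * (N:ℝ)^2 with hW
  set e := Nat.log 2 ⌊W⌋₊ with he
  have hW0 : 0 ≤ W := by linarith
  have hfl : 2 ≤ ⌊W⌋₊ := Nat.le_floor (by exact_mod_cast hN2)
  have he1 : 1 ≤ e := by
    rw [he]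
    exact Nat.le_log_of_pow_le (by norm_num) (by simpa using hfl)
  have heW : (2:ℝ) ^ e ≤ W := by
    have h1 : 2 ^ e ≤ ⌊W⌋₊ := Nat.pow_log_le_self 2 (by omega)
    have h2 : ((2 ^ e : ℕ) : ℝ) ≤ ⌊W⌋₊ := by exact_mod_cast h1
    push_cast at h2
    exact h2.trans (Nat.floor_le hW0)
  have heW2 : W / 2 ≤ (2:ℝ) ^ e := by
    have h1 : ⌊W⌋₊ < 2 ^ (e + 1) := Nat.lt_pow_succ_log_self (by norm_num) _
    have h2 : ⌊W⌋₊ + 1 ≤ 2 ^ (e + 1) := h1
    have h3 : ((⌊W⌋₊ + 1 : ℕ) : ℝ) ≤ ((2 ^ (e + 1) : ℕ) : ℝ) := by exact_mod_cast h2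
    push_cast at h3
    have h4 := Nat.lt_floor_add_one W
    rw [pow_succ] at h3
    linarith
  set s : ℝ := Lb / (2 * (N:ℝ)^2) with hs
  have hs0 : 0 < s := by positivity
  -- the fractions
  have hfr : ∀ j, j < 2 ^ E → ∃ τ : ℕ → ℚ, (∀ i < 2 ^ e, Real.log (x j - r / 2) / Lb < τ i ∧
      (τ i : ℝ) < Real.log (x j + r / 2) / Lb ∧ k ≤ (τ i).den ∧ (τ i).den ≤ N) ∧
      ∀ i i' : ℕ, i < i' → i' < 2 ^ e → ((i':ℝ) - i) * (1 / (N:ℝ)^2) ≤ (τ i' : ℝ) - τ i := by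
    intro j hj
    have hj1 := hsub j hj
    have h1 : x j - r ∈ Ioo A B := hj1 ⟨le_rfl, by linarith⟩
    have h2 : x j + r ∈ Ioo A B := hj1 ⟨by linarith, le_rfl⟩
    have hp1 : 1 < x j - r / 2 := by linarith [h1.1]
    have hp2 : x j + r / 2 < B := by linarith [h2.2]
    set u := Real.log (x j - r / 2) / Lb with hu
    set v := Real.log (x j + r / 2) / Lb with hv
    have hup : Real.log (x j + r / 2) - Real.log (x j - r / 2) ≤ r := by
      rw [← Real.log_div (by linarith) (by linarith)]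
      refine (Real.log_le_sub_one_of_pos (div_pos (by linarith) (by linarith))).trans ?_
      rw [sub_le_iff_le_add, div_le_iff₀ (by linarith)]
      nlinarith
    have hlo : r / B ≤ Real.log (x j + r / 2) - Real.log (x j - r / 2) := by
      have h3 := Real.log_le_sub_one_of_pos
        (show 0 < (x j - r / 2) / (x j + r / 2) from div_pos (by linarith) (by linarith))
      rw [Real.log_div (by linarith) (by linarith)] at h3
      have h4 : r / B ≤ 1 - (x j - r / 2) / (x j + r / 2) := by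
        rw [div_le_iff₀ (by linarith), one_sub_div (by linarith), div_mul_eq_mul_div,
          le_div_iff₀ (by linarith)]
        nlinarith
      linarith
    have hvu1 : v - u ≤ 1 := by
      rw [hu, hv, ← sub_div, div_le_one hLb]
      linarith
    have hvul : l ≤ v - u := by
      rw [hu, hv, ← sub_div, hl, ← div_div]
      exact div_le_div_of_nonneg_right hlo hLb.le
    have hl0 : 0 < l := by positivity
    have huv : u < v := by linarith
    obtain ⟨T, hT1, hT2⟩ := many_frac huv hvu1 (N := N)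
      (hN8.trans (mul_le_mul_of_nonneg_right hvul hN0.le))
    have hTc : 2 ^ e ≤ T.card := by
      have h3 : W ≤ (v - u) ^ 2 / 288 * (N:ℝ)^2 := by
        rw [hW]
        gcongr
      have h4 : ((2 ^ e : ℕ) : ℝ) ≤ T.card := by
        push_cast
        linarith
      exact_mod_cast h4
    obtain ⟨τ, hτ1, hτ2⟩ := enum_frac (fun t ht => (hT1 t ht).2.2.2) hTc
    refine ⟨τ, fun i hi => ?_, hτ2⟩
    have h3 := hT1 _ (hτ1 i hi)
    refine ⟨h3.1, h3.2.1, ?_, h3.2.2.2⟩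
    have h4 : (k:ℝ) ≤ (τ i).den := by
      refine hNk.trans (le_trans ?_ h3.2.2.1)
      gcongr
    exact_mod_cast h4
  choose! τ hτ1 hτ2 using hfr
  set x' : ℕ → ℝ := fun q => b ^ ((τ (q / 2 ^ e) (q % 2 ^ e) : ℚ) : ℝ) with hx'
  have hidx : ∀ j i, i < 2 ^ e → x' (2 ^ e * j + i) = b ^ ((τ j i : ℚ) : ℝ) := by
    intro j i hi
    have h1 : (2 ^ e * j + i) / 2 ^ e = j := by
      rw [Nat.mul_add_div (by positivity), Nat.div_eq_of_lt hi, add_zero]
    have h2 : (2 ^ e * j + i) % 2 ^ e = i := by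
      rw [Nat.mul_add_mod, Nat.mod_eq_of_lt hi]
    rw [hx']
    simp only [h1, h2]
  have hb0 : 0 < b := by linarith
  have hexp : ∀ t : ℝ, b ^ t = Real.exp (t * Lb) := fun t => by
    rw [Real.rpow_def_of_pos hb0, mul_comm]
  -- position of the centres
  have hpos : ∀ j i, j < 2 ^ E → i < 2 ^ e → x j - r / 2 < b ^ ((τ j i : ℚ) : ℝ) ∧
      b ^ ((τ j i : ℚ) : ℝ) < x j + r / 2 := by
    intro j i hj hi
    obtain ⟨h1, h2, -, -⟩ := hτ1 j hj i hi
    have hj1 := hsub j hj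
    have h3 : x j - r ∈ Ioo A B := hj1 ⟨le_rfl, by linarith⟩
    have hp1 : 0 < x j - r / 2 := by linarith [h3.1]
    rw [div_lt_iff₀ hLb] at h1
    rw [lt_div_iff₀ hLb] at h2
    rw [hexp]
    constructor
    · rwa [← Real.log_lt_iff_lt_exp hp1]
    · rwa [← Real.lt_log_iff_exp_lt (by linarith)]
  have hin : ∀ j i, j < 2 ^ E → i < 2 ^ e →
      Icc (x' (2 ^ e * j + i) - ρ) (x' (2 ^ e * j + i) + ρ) ⊆ Icc (x j - r) (x j + r) := by
    intro j i hj hi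
    rw [hidx j i hi]
    obtain ⟨h1, h2⟩ := hpos j i hj hi
    apply Icc_subset_Icc <;> linarith
  have hsepr : ∀ j i i', j < 2 ^ E → i < i' → i' < 2 ^ e →
        ∀ y ∈ Icc (x' (2 ^ e * j + i) - ρ) (x' (2 ^ e * j + i) + ρ),
        ∀ y' ∈ Icc (x' (2 ^ e * j + i') - ρ) (x' (2 ^ e * j + i') + ρ),
          ((i':ℝ) - i) * s ≤ y' - y := by
    intro j i i' hj hii hi' y hy y' hy'
    rw [hidx j i (hii.trans hi')] at hy
    rw [hidx j i' hi'] at hy'
    have h1 := hτ2 j hj i i' hii hi'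
    obtain ⟨h2, -⟩ := hpos j i hj (hii.trans hi')
    have h3 : x j - r ∈ Ioo A B := hsub j hj ⟨le_rfl, by linarith⟩
    have h4 : 1 ≤ b ^ ((τ j i : ℚ) : ℝ) := by linarith [h3.1]
    set t : ℝ := ((τ j i : ℚ) : ℝ) with ht
    set t' : ℝ := ((τ j i' : ℚ) : ℝ) with ht'
    have hii1 : (1:ℝ) ≤ (i':ℝ) - i := by
      have : ((i + 1 : ℕ) : ℝ) ≤ i' := by exact_mod_cast hii
      push_cast at this
      linarith
    have h5 : (t' - t) * Lb ≤ b ^ t' - b ^ t := by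
      have h6 : b ^ t' = b ^ t * b ^ (t' - t) := by
        rw [← Real.rpow_add hb0]
        congr 1
        ring
      have h7 : (t' - t) * Lb + 1 ≤ b ^ (t' - t) := by
        rw [hexp]
        exact Real.add_one_le_exp _
      have h8 : 0 ≤ t' - t := le_trans (by positivity) h1
      have h9 : 0 ≤ (t' - t) * Lb := by positivity
      rw [h6]
      nlinarith
    have h6 : ((i':ℝ) - i) * (1 / (N:ℝ)^2) * Lb ≤ (t' - t) * Lb :=
      mul_le_mul_of_nonneg_right h1 hLb.le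
    have h7 : ((i':ℝ) - i) * (1 / (N:ℝ)^2) * Lb = 2 * (((i':ℝ) - i) * s) := by
      rw [hs]
      field_simp
    have h8 : s ≤ ((i':ℝ) - i) * s := le_mul_of_one_le_left hs0.le hii1
    linarith [hy.2, hy'.1]
  have h4r : 2 ^ e * s ≤ 4 * r := by
    have hp : 0 < 2 ^ E := by positivity
    have h2e : 2 ≤ 2 ^ e := by
      calc 2 = 2 ^ 1 := by norm_num
        _ ≤ 2 ^ e := Nat.pow_le_pow_right (by norm_num) he1
    have hi1 : 0 < 2 ^ e - 1 := by omega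
    have hi2 : 2 ^ e - 1 < 2 ^ e := by omega
    have hm1 : x' (2 ^ e * 0 + 0) ∈ Icc (x' (2 ^ e * 0 + 0) - ρ) (x' (2 ^ e * 0 + 0) + ρ) :=
      ⟨by linarith, by linarith⟩
    have hm2 : x' (2 ^ e * 0 + (2 ^ e - 1)) ∈
      Icc (x' (2 ^ e * 0 + (2 ^ e - 1)) - ρ) (x' (2 ^ e * 0 + (2 ^ e - 1)) + ρ) :=
      ⟨by linarith, by linarith⟩
    have h1 := hsepr 0 0 (2 ^ e - 1) hp hi1 hi2 _ hm1 _ hm2
    have h2 := hin 0 0 hp (by positivity) hm1
    have h3 := hin 0 (2 ^ e - 1) hp hi2 hm2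
    have h4 : ((2 ^ e - 1 : ℕ) : ℝ) = 2 ^ e - 1 := by
      push_cast [Nat.one_le_two_pow]
      ring
    rw [h4] at h1
    push_cast at h1
    have h5 : (2:ℝ) ≤ 2 ^ e := by exact_mod_cast h2e
    have h6 : (2:ℝ) ^ e * s ≤ 2 * ((2 ^ e - 1 - 0) * s) := by nlinarith
    linarith [h2.1, h3.2]
  refine ⟨e, s, x', ρ, ⟨hρ0, by simp only; linarith, ?_⟩, he1, hs0, hin, hsepr, ?_, h4r, ?_, ?_⟩
  · intro q hq
    simp only at hq ⊢
    have h1 : q / 2 ^ e < 2 ^ E := by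
      rw [Nat.div_lt_iff_lt_mul (by positivity)]
      rwa [pow_add] at hq
    have h2 : q % 2 ^ e < 2 ^ e := Nat.mod_lt _ (by positivity)
    have h3 : 2 ^ e * (q / 2 ^ e) + q % 2 ^ e = q := Nat.div_add_mod _ _
    have h4 := hin _ _ h1 h2
    rw [h3] at h4
    exact h4.trans (hsub _ h1)
  · calc κ * r ^ 2 = W / 2 * s := by
          rw [hκdef, hW, hs, hl]
          field_simp
          ring
      _ ≤ 2 ^ e * s := by gcongr
  · refine hNg.trans ?_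
    have := lg_pos σ (by positivity : 0 < κ * ρ ^ 2) hNκ
    gcongr
  · intro j i hj hi
    obtain ⟨h1, h2, h3, h4⟩ := hτ1 j hj i hi
    have h5 : x j - r ∈ Ioo A B := hsub j hj ⟨le_rfl, by linarith⟩
    have ht0 : (0:ℝ) < ((τ j i : ℚ) : ℝ) := by
      refine lt_of_le_of_lt ?_ h1
      exact div_nonneg (Real.log_nonneg (by linarith [h5.1])) hLb.le
    have ht0' : 0 < τ j i := by exact_mod_cast ht0
    have hnum : 0 < (τ j i).num := Rat.num_pos.2 ht0'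
    obtain ⟨m, hm⟩ := Int.eq_ofNat_of_zero_le hnum.le
    refine ⟨(τ j i).den, m, h3, (τ j i).den_pos, ?_⟩
    intro a ha
    have ha2 : a ∈ Ioo A B := hsub j hj (hin j i hj hi ha)
    have hc2 : x' (2 ^ e * j + i) ∈ Ioo A B :=
      hsub j hj (hin j i hj hi ⟨by linarith, by linarith⟩)
    rw [hidx j i hi] at ha hc2
    set y : ℝ := b ^ ((τ j i : ℚ) : ℝ) with hy
    have hyn : y ^ (τ j i).den = b ^ m := by
      rw [hy, ← Real.rpow_natCast, ← Real.rpow_mul hb0.le]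
      have h6 : ((τ j i : ℚ) : ℝ) * ((τ j i).den : ℝ) = m := by
        have h7 : (τ j i) * ((τ j i).den : ℚ) = (τ j i).num := Rat.mul_den_eq_num _
        have h8 : ((τ j i : ℚ) : ℝ) * ((τ j i).den : ℝ) = ((τ j i).num : ℝ) := by exact_mod_cast h7
        rw [h8, hm]
        norm_num
      rw [h6, Real.rpow_natCast]
    rw [← hyn]
    have hya : |a - y| ≤ ρ := by
      rw [abs_le]
      constructor <;> linarith [ha.1, ha.2]
    have h6 := abs_pow_sub_pow_le a y (τ j i).den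
    refine h6.trans ?_
    have h7 : max |a| |y| ≤ B := by
      apply max_le
      · rw [abs_of_pos (by linarith [ha2.1])]
        exact ha2.2.le
      · rw [abs_of_pos (by linarith [hc2.1])]
        exact hc2.2.le
    have h8 : max |a| |y| ^ ((τ j i).den - 1) ≤ B ^ N := by
      calc max |a| |y| ^ ((τ j i).den - 1) ≤ B ^ ((τ j i).den - 1) := by gcongr
        _ ≤ B ^ N := pow_le_pow_right₀ hB.le (by omega)
    have h9 : ((τ j i).den : ℝ) ≤ N := by exact_mod_cast h4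
    calc |a - y| * ((τ j i).den : ℝ) * max |a| |y| ^ ((τ j i).den - 1)
        ≤ ρ * N * B ^ N := by gcongr
      _ = 1 / (k + 1) := by
          rw [hρ]
          field_simp

end Pool.Agent.R485.LB
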