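import Pool.Agent.R485.LB.Low

set_option autoImplicit false

/-! The lower bound for the gauge measures. -/

namespace Pool.Agent.R485.LB

open Set Filter Topology MeasureTheory Pool.Agent.R485.RG
open scoped ENNReal NNReal

/-- Numbers with powers very close to powers of `b`. -/
def VC (b : ℝ) : Set ℝ :=
  {a | ∀ k : ℕ, ∃ n m : ℕ, k ≤ n ∧ 1 ≤ n ∧ |a ^ n - b ^ m| ≤ 1 / ((k:ℝ) + 1)}

theorem lower {b A B σ : ℝ} (hb : 1 < b) (hA : 1 ≤ A) (hAB : A < B) (hσ : 0 < σ) (hσ2 : σ < 2) :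
    Measure.mkMetric (fun d : ℝ≥0∞ => ENNReal.ofReal (lg σ d.toReal)) (VC b ∩ Ioo A B) = ⊤ := by
  classical
  have hLb : 0 < Real.log b := Real.log_pos hb
  set r₁ : ℝ := min (Real.log b) (Real.exp (-σ) / 4) with hr₁
  have hr₁0 : 0 < r₁ := lt_min hLb (by positivity)
  have hr₁1 : r₁ ≤ Real.log b := min_le_left _ _
  have hr₁2 : 4 * r₁ ≤ Real.exp (-σ) := by
    have : r₁ ≤ Real.exp (-σ) / 4 := min_le_right _ _
    linarith
  have hexp1 : Real.exp (-σ) < 1 := by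
    have := Real.exp_lt_exp.2 (show -σ < 0 by linarith)
    rwa [Real.exp_zero] at this
  set κ : ℝ := 1 / (1152 * B ^ 2 * Real.log b) with hκdef
  have hB : 1 < B := by linarith
  have hκ : 0 < κ := by positivity
  have hst : ∀ (k : ℕ) (S : {S : ℕ × (ℕ → ℝ) × ℝ // Good A B r₁ S}),
      ∃ (e : ℕ) (s : ℝ) (S' : {S : ℕ × (ℕ → ℝ) × ℝ // Good A B r₁ S}),
        S'.1.1 = S.1.1 + e ∧ 1 ≤ e ∧ 0 < s ∧
      (∀ j i, j < 2 ^ S.1.1 → i < 2 ^ e →
        Icc (S'.1.2.1 (2 ^ e * j + i) - S'.1.2.2) (S'.1.2.1 (2 ^ e * j + i) + S'.1.2.2) ⊆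
        Icc (S.1.2.1 j - S.1.2.2) (S.1.2.1 j + S.1.2.2)) ∧
      (∀ j i i', j < 2 ^ S.1.1 → i < i' → i' < 2 ^ e →
        ∀ y ∈ Icc (S'.1.2.1 (2 ^ e * j + i) - S'.1.2.2) (S'.1.2.1 (2 ^ e * j + i) + S'.1.2.2),
        ∀ y' ∈ Icc (S'.1.2.1 (2 ^ e * j + i') - S'.1.2.2) (S'.1.2.1 (2 ^ e * j + i') + S'.1.2.2),
          ((i':ℝ) - i) * s ≤ y' - y) ∧
      κ * S.1.2.2 ^ 2 ≤ 2 ^ e * s ∧ 2 ^ e * s ≤ 4 * S.1.2.2 ∧
      2 * ((k:ℝ) + 1) ≤ 2 ^ e * lg σ (κ * S'.1.2.2 ^ 2) ∧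
      (∀ j i, j < 2 ^ S.1.1 → i < 2 ^ e → ∃ n m : ℕ, k ≤ n ∧ 1 ≤ n ∧
        ∀ a ∈ Icc (S'.1.2.1 (2 ^ e * j + i) - S'.1.2.2) (S'.1.2.1 (2 ^ e * j + i) + S'.1.2.2),
          |a ^ n - b ^ m| ≤ 1 / (k + 1)) := by
    intro k S
    obtain ⟨e, s, x', r', h0, h1⟩ := step hb hA hAB hσ hσ2 hr₁1 k S.1 S.2
    exact ⟨e, s, ⟨(S.1.1 + e, x', r'), h0⟩, rfl, h1⟩
  choose e s nxt h1 h2 h3 h4 h5 h6 h7 h8 h9 using hst
  set r₂ : ℝ := min r₁ ((B - A) / 4) with hr₂
  have hr₂0 : 0 < r₂ := lt_min hr₁0 (by linarith)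
  have hG0 : Good A B r₁ (0, fun _ => (A + B) / 2, r₂) := by
    refine ⟨hr₂0, min_le_left _ _, fun j _ => ?_⟩
    have : r₂ ≤ (B - A) / 4 := min_le_right _ _
    intro y hy
    simp only at hy
    exact ⟨by linarith [hy.1], by linarith [hy.2]⟩
  let st : ℕ → {S : ℕ × (ℕ → ℝ) × ℝ // Good A B r₁ S} := fun k =>
    Nat.rec ⟨(0, fun _ => (A + B) / 2, r₂), hG0⟩ (fun k S => nxt k S) k
  have hst_succ : ∀ k, st (k + 1) = nxt k (st k) := fun k => rfl
  set e' : ℕ → ℕ := fun k => e k (st k) with he'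
  set s' : ℕ → ℝ := fun k => s k (st k) with hs'
  have hES : ∀ k, (st k).1.1 = ES e' k := by
    intro k
    induction k with
    | zero => rfl
    | succ k ih => rw [hst_succ, h1, ih, ES_succ]
  set I : ℕ → ℕ → Set ℝ := fun k j =>
    Icc ((st k).1.2.1 j - (st k).1.2.2) ((st k).1.2.1 j + (st k).1.2.2) with hI
  have hmain := cantor_gauge (e := e') (I := I) (s := s') (f := lg σ) (r₀ := Real.exp (-σ))
    (by
      intro M
      refine ⟨M, ?_⟩
      unfold ES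
      calc M = ∑ l ∈ Finset.range M, 1 := by simp
        _ ≤ _ := Finset.sum_le_sum fun l _ => h2 l (st l))
    (by
      intro k j hj
      refine ⟨isCompact_Icc, ?_⟩
      rw [hI]
      exact nonempty_Icc.2 (by linarith [(st k).2.1]))
    (by
      intro k j i hj hi
      rw [← hES] at hj
      have := h4 k (st k) j i hj hi
      rw [hI]
      simp only
      rw [hst_succ]
      exact this)
    (fun k => h3 k (st k))
    (by
      intro k j i i' hj hii hi' x hx y hy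
      rw [← hES] at hj
      rw [hI] at hx hy
      simp only at hx hy
      rw [hst_succ] at hx hy
      exact h5 k (st k) j i i' hj hii hi' x hx y hy)
    (Real.exp_pos _) (fun r hr hr' => lg_pos σ hr (by linarith))
    (fun r R hr hrR hR => lg_mono hσ.le hr hrR (by linarith))
    (fun r R hr hrR hR => lg_doub hσ hr hrR hR)
    (by
      intro k
      have h10 := h7 k (st k)
      have h11 : (st k).1.2.2 ≤ r₁ := (st k).2.2.1
      exact h10.trans (by linarith))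
    (by
      intro C hC
      obtain ⟨K, hK⟩ := exists_nat_gt (1 / C)
      filter_upwards [eventually_ge_atTop (K + 1)] with k hk
      obtain ⟨k', rfl⟩ : ∃ k', k = k' + 1 := ⟨k - 1, by omega⟩
      have hk' : (K:ℝ) ≤ k' := by exact_mod_cast (by omega : K ≤ k')
      have h10 := h8 k' (st k')
      rw [← hst_succ] at h10
      have h11 := h6 (k' + 1) (st (k' + 1))
      have hr0 : 0 < (st (k' + 1)).1.2.2 := (st (k' + 1)).2.1
      have h12 : lg σ (κ * (st (k' + 1)).1.2.2 ^ 2) ≤ lg σ (2 ^ (e' (k' + 1)) * s' (k' + 1)) := by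
        refine lg_mono hσ.le (by positivity) h11 ?_
        have h13 := h7 (k' + 1) (st (k' + 1))
        have h14 : (st (k' + 1)).1.2.2 ≤ r₁ := (st (k' + 1)).2.2.1
        calc (2:ℝ) ^ (e' (k' + 1)) * s' (k' + 1) ≤ 4 * (st (k' + 1)).1.2.2 := h13
          _ ≤ 4 * r₁ := by linarith
          _ < 1 := by linarith
      have h15 : (2:ℝ) ^ (e' k') ≤ 2 ^ ES e' (k' + 1) := by
        apply pow_le_pow_right₀ (by norm_num)
        rw [ES_succ]
        omega
      have h16 : 0 < lg σ (κ * (st (k' + 1)).1.2.2 ^ 2) := by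
        by_contra hcon
        push Not at hcon
        have h17 : (2:ℝ) ^ (e k' (st k')) * lg σ (κ * (st (k' + 1)).1.2.2 ^ 2) ≤ 0 :=
          mul_nonpos_of_nonneg_of_nonpos (by positivity) hcon
        have h18 : (0:ℝ) ≤ k' := Nat.cast_nonneg _
        linarith
      have h17 : 2 * ((k':ℝ) + 1) ≤ 2 ^ ES e' (k' + 1) * lg σ (2 ^ (e' (k' + 1)) * s' (k' + 1)) := by
        refine h10.trans ?_
        calc (2:ℝ) ^ (e k' (st k')) * lg σ (κ * (st (k' + 1)).1.2.2 ^ 2)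
            ≤ 2 ^ ES e' (k' + 1) * lg σ (κ * (st (k' + 1)).1.2.2 ^ 2) :=
              mul_le_mul_of_nonneg_right h15 h16.le
          _ ≤ _ := mul_le_mul_of_nonneg_left h12 (by positivity)
      have h18 : 1 ≤ C * ((k':ℝ) + 1) := by
        rw [div_lt_iff₀ hC] at hK
        nlinarith
      calc (2:ℝ) ≤ C * (2 * ((k':ℝ) + 1)) := by linarith
        _ ≤ C * (2 ^ ES e' (k' + 1) * lg σ (2 ^ (e' (k' + 1)) * s' (k' + 1))) :=
            mul_le_mul_of_nonneg_left h17 hC.le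
        _ = _ := by ring)
  rw [eq_top_iff, ← hmain]
  apply measure_mono
  intro x hx
  constructor
  · intro k
    obtain ⟨q, hq, hxq⟩ := hx (k + 1)
    have h10 : q / 2 ^ (e' k) < 2 ^ ES e' k := by
      rw [Nat.div_lt_iff_lt_mul (by positivity)]
      rwa [ES_succ, pow_add] at hq
    have h11 : q % 2 ^ (e' k) < 2 ^ (e' k) := Nat.mod_lt _ (by positivity)
    have h12 : 2 ^ (e' k) * (q / 2 ^ (e' k)) + q % 2 ^ (e' k) = q := Nat.div_add_mod _ _
    rw [← hES] at h10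
    obtain ⟨n, m, hn, hn1, hnm⟩ := h9 k (st k) _ _ h10 h11
    refine ⟨n, m, hn, hn1, hnm x ?_⟩
    have h13 : 2 ^ (e k (st k)) * (q / 2 ^ (e' k)) + q % 2 ^ (e' k) = q := h12
    rw [h13]
    rw [hI] at hxq
    simp only at hxq
    rw [hst_succ] at hxq
    exact hxq
  · obtain ⟨q, hq, hxq⟩ := hx 0
    rw [← hES] at hq
    exact (st 0).2.2.2 q hq hxq

end Pool.Agent.R485.LB
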