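import Pool.Agent.R485.LB.Upp
import Pool.Agent.R485.LB.Low2

set_option autoImplicit false

/-! Generic numbers, dimension zero, and the strong asymptotic formula. -/

namespace Pool.Agent.R485.LB

open Set Filter Topology MeasureTheory Pool.Agent.H491R3.PE Asymptotics
open scoped ENNReal NNReal

/-- For all `x > 0` the set is infinite. -/
def AI (a b : ℝ) : Prop := ∀ x : ℝ, 0 < x → {p : ℕ × ℕ | |a ^ p.1 - b ^ p.2| ≤ x}.Infinite

/-- The asymptotic formula with error `O(log x)`. -/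
def SA (a b : ℝ) : Prop := ∃ C : ℝ, ∀ x : ℝ, 2 ≤ x → {p : ℕ × ℕ | |a ^ p.1 - b ^ p.2| ≤ x}.Finite ∧
  |(({p : ℕ × ℕ | |a ^ p.1 - b ^ p.2| ≤ x}.ncard : ℕ) : ℝ) -
    Real.log x ^ 2 / (Real.log a * Real.log b)| ≤ C * Real.log x

/-- The asymptotic formula. -/
def AF (a b : ℝ) : Prop :=
  (fun x : ℝ => (({p : ℕ × ℕ | |a ^ p.1 - b ^ p.2| ≤ x}.ncard : ℕ) : ℝ)) ~[atTop]
    (fun x : ℝ => Real.log x ^ 2 / (Real.log a * Real.log b))

theorem AF_of_SA {a b : ℝ} (ha : 1 < a) (hb : 1 < b) (h : SA a b) : AF a b := by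
  obtain ⟨C, hC⟩ := h
  have hla := Real.log_pos ha
  have hlb := Real.log_pos hb
  have h1 : (fun x : ℝ => (({p : ℕ × ℕ | |a ^ p.1 - b ^ p.2| ≤ x}.ncard : ℕ) : ℝ) -
      Real.log x ^ 2 / (Real.log a * Real.log b)) =O[atTop] (fun x : ℝ => Real.log x) := by
    refine IsBigO.of_bound C ?_
    filter_upwards [eventually_ge_atTop 2] with x hx
    rw [Real.norm_eq_abs, Real.norm_eq_abs, abs_of_nonneg (Real.log_nonneg (by linarith))]
    exact (hC x hx).2
  have h2 : (fun x : ℝ => Real.log x ^ 2) =O[atTop]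
      (fun x : ℝ => Real.log x ^ 2 / (Real.log a * Real.log b)) := by
    refine IsBigO.of_bound (Real.log a * Real.log b) (Eventually.of_forall fun x => ?_)
    rw [norm_div, Real.norm_eq_abs, Real.norm_eq_abs, abs_of_pos (mul_pos hla hlb)]
    rw [mul_div_cancel₀]
    positivity
  exact (h1.trans_isLittleO log_littleO).trans_isBigO h2

theorem not_AF_of_AI {a b : ℝ} (ha : 1 < a) (hb : 1 < b) (h : AI a b) : ¬ AF a b := by
  intro h1
  have h2 : (fun x : ℝ => (({p : ℕ × ℕ | |a ^ p.1 - b ^ p.2| ≤ x}.ncard : ℕ) : ℝ)) =ᶠ[atTop] 0 := by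
    filter_upwards [eventually_gt_atTop 0] with x hx
    rw [(h x hx).ncard]
    simp
  have h3 : (fun x : ℝ => Real.log x ^ 2 / (Real.log a * Real.log b)) =ᶠ[atTop] 0 := by
    have h4 := (h1.congr_left h2).symm
    exact isEquivalent_zero_iff_eventually_zero.1 h4
  have hla := Real.log_pos ha
  have hlb := Real.log_pos hb
  obtain ⟨x, hx1, hx2⟩ := (h3.and (eventually_gt_atTop 1)).exists
  have h5 : 0 < Real.log x ^ 2 / (Real.log a * Real.log b) := by
    have := Real.log_pos hx2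
    positivity
  simp only [Pi.zero_apply] at hx1
  linarith

theorem AI_of_VC {a b : ℝ} (h : a ∈ VC b) : AI a b := by
  intro x hx hfin
  obtain ⟨K, hK⟩ := (hfin.image Prod.fst).bddAbove
  obtain ⟨L, hL⟩ := exists_nat_gt (1 / x)
  obtain ⟨n, m, hn, -, hnm⟩ := h (max (K + 1) L)
  have h1 : (n, m) ∈ {p : ℕ × ℕ | |a ^ p.1 - b ^ p.2| ≤ x} := by
    refine hnm.trans ?_
    have h2 : (L:ℝ) ≤ ((max (K + 1) L : ℕ) : ℝ) := by exact_mod_cast le_max_right _ _
    rw [div_le_iff₀ (by positivity)]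
    rw [div_lt_iff₀ hx] at hL
    nlinarith
  have h2 := hK ⟨(n, m), h1, rfl⟩
  have h3 := (le_max_left (K + 1) L).trans hn
  simp only at h2
  omega

theorem generic {b : ℝ} (hb : 1 < b) : ∀ᶠ a in residual ℝ, 1 < a → AI a b := by
  set O : ℕ → Set ℝ := fun k =>
    {a | ∃ n m : ℕ, k ≤ n ∧ 1 ≤ n ∧ |a ^ n - b ^ m| < 1 / ((k:ℝ) + 1)} ∪ Iio 1 with hO
  have h1 : ∀ k, IsOpen (O k) := by
    intro k
    refine IsOpen.union ?_ isOpen_Iio
    have : {a : ℝ | ∃ n m : ℕ, k ≤ n ∧ 1 ≤ n ∧ |a ^ n - b ^ m| < 1 / ((k:ℝ) + 1)} =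
        ⋃ (n : ℕ) (m : ℕ) (_ : k ≤ n) (_ : 1 ≤ n), {a : ℝ | |a ^ n - b ^ m| < 1 / ((k:ℝ) + 1)} := by
      ext a
      simp only [mem_setOf_eq, mem_iUnion, exists_prop]
    rw [this]
    refine isOpen_iUnion fun n => isOpen_iUnion fun m => isOpen_iUnion fun _ =>
      isOpen_iUnion fun _ => ?_
    exact isOpen_lt (by fun_prop) continuous_const
  have h2 : ∀ k, Dense (O k) := by
    intro k
    rw [dense_iff_inter_open]
    intro U hU hne
    by_cases hU1 : (U ∩ Iio 1).Nonempty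
    · obtain ⟨x, hx⟩ := hU1
      exact ⟨x, hx.1, Or.inr hx.2⟩
    · obtain ⟨x, hx⟩ := hne
      have hx1 : 1 ≤ x := by
        by_contra h
        exact hU1 ⟨x, hx, not_le.1 h⟩
      obtain ⟨ε, hε, hball⟩ := Metric.isOpen_iff.1 hU x hx
      have h3 := lower hb hx1 (show x < x + ε by linarith) one_pos one_lt_two
      have h4 : (VC b ∩ Ioo x (x + ε)).Nonempty := by
        by_contra h
        rw [not_nonempty_iff_eq_empty] at h
        rw [h] at h3
        simp at h3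
      obtain ⟨y, hy1, hy2⟩ := h4
      refine ⟨y, hball ?_, Or.inl ?_⟩
      · rw [Metric.mem_ball, Real.dist_eq, abs_of_pos (by linarith [hy2.1])]
        linarith [hy2.2]
      · obtain ⟨n, m, hn, hn1, hnm⟩ := hy1 (k + 1)
        refine ⟨n, m, by omega, hn1, hnm.trans_lt ?_⟩
        push_cast
        apply one_div_lt_one_div_of_lt <;> [positivity; linarith]
  have h3 : ∀ᶠ a in residual ℝ, ∀ k, a ∈ O k :=
    eventually_countable_forall.2 fun k => residual_of_dense_open (h1 k) (h2 k)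
  filter_upwards [h3] with a ha ha1
  apply AI_of_VC
  intro k
  rcases ha k with ⟨n, m, h4, h5, h6⟩ | h4
  · exact ⟨n, m, h4, h5, h6.le⟩
  · exact absurd h4 (not_lt.2 ha1.le)

theorem SA_of {a b : ℝ} (ha : 1 < a) (hb : 1 < b) (hirr : Irrational (Real.log a / Real.log b))
    (hS : (SS a b).Finite) : SA a b := by
  obtain ⟨C, hC⟩ := countS ha hb hirr (fun x => hS.subset (fun p hp => hp.1))
  refine ⟨C + (SS a b).ncard / Real.log 2, fun x hx => ?_⟩
  obtain ⟨h1, h2⟩ := hC x hx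
  refine ⟨h1, ?_⟩
  have h3 : ((SX a b x).ncard : ℝ) ≤ (SS a b).ncard := by
    exact_mod_cast ncard_le_ncard (fun p (hp : p ∈ SX a b x) => hp.1) hS
  have hl2 : 0 < Real.log 2 := Real.log_pos one_lt_two
  have h4 : Real.log 2 ≤ Real.log x := Real.log_le_log two_pos hx
  have h5 : ((SS a b).ncard : ℝ) ≤ (SS a b).ncard / Real.log 2 * Real.log x := by
    rw [div_mul_eq_mul_div, le_div_iff₀ hl2]
    gcongr
  have h6 : (0:ℝ) ≤ (SX a b x).ncard := Nat.cast_nonneg _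
  have h7 : |((NS a b x).ncard : ℝ) - Real.log x ^ 2 / (Real.log a * Real.log b)| ≤
      (C + (SS a b).ncard / Real.log 2) * Real.log x := by
    rw [abs_le] at h2 ⊢
    rw [add_mul]
    constructor <;> linarith [h2.1, h2.2]
  exact h7

theorem null {b σ : ℝ} (hb : 1 < b) (hσ : 2 < σ) : LM σ {a | 1 < a ∧ ¬ SA a b} = 0 := by
  have hσ0 : 0 < σ := by linarith
  have hLb : 0 < Real.log b := Real.log_pos hb
  have hsub : {a | 1 < a ∧ ¬ SA a b} ⊆ (range fun q : ℚ => Real.exp (q * Real.log b)) ∪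
      ⋃ k : ℕ, {a | a ∈ Ioo (1 + 1 / ((k:ℝ) + 1)) (k + 3) ∧ (SS a b).Infinite} := by
    rintro a ⟨ha, hna⟩
    by_cases hirr : Irrational (Real.log a / Real.log b)
    · right
      have hinf : (SS a b).Infinite := fun hfin => hna (SA_of ha hb hirr hfin)
      obtain ⟨K, hK⟩ := exists_nat_gt (1 / (a - 1))
      obtain ⟨L, hL⟩ := exists_nat_gt a
      rw [mem_iUnion]
      refine ⟨max K L, ⟨?_, ?_⟩, hinf⟩
      · have h1 : (K:ℝ) ≤ ((max K L : ℕ) : ℝ) := by exact_mod_cast le_max_left _ _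
        have h0 : 0 < a - 1 := by linarith
        have h2 : 1 / (((max K L : ℕ) : ℝ) + 1) < a - 1 := by
          rw [div_lt_iff₀ (by positivity)]
          rw [div_lt_iff₀ h0] at hK
          nlinarith
        linarith
      · have h1 : (L:ℝ) ≤ ((max K L : ℕ) : ℝ) := by exact_mod_cast le_max_right _ _
        linarith
    · left
      unfold Irrational at hirr
      push Not at hirr
      obtain ⟨q, hq⟩ := hirr
      refine ⟨q, ?_⟩
      simp only
      rw [hq, div_mul_cancel₀ _ hLb.ne', Real.exp_log (by linarith)]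
  refine le_antisymm ((measure_mono hsub).trans ?_) bot_le
  refine (measure_union_le _ _).trans ?_
  rw [LM_countable hσ0 (countable_range _), zero_add]
  refine (measure_iUnion_le _).trans ?_
  refine le_of_eq ?_
  rw [ENNReal.tsum_eq_zero]
  intro k
  have h1 : 1 / ((k:ℝ) + 1) ≤ 1 := by
    rw [div_le_one (by positivity)]
    linarith [(Nat.cast_nonneg k : (0:ℝ) ≤ k)]
  have h2 : 0 < 1 / ((k:ℝ) + 1) := by positivity
  exact upper hb (by linarith) (by linarith [(Nat.cast_nonneg k : (0:ℝ) ≤ k)]) hσ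

theorem full {b σ : ℝ} (hb : 1 < b) (hσ : 0 < σ) (hσ2 : σ < 2) (U : Set ℝ) (hU : IsOpen U)
    (hne : (U ∩ Ioi 1).Nonempty) : LM σ {a | a ∈ U ∧ 1 < a ∧ AI a b} = ⊤ := by
  obtain ⟨x, hx, hx1⟩ := hne
  obtain ⟨ε, hε, hball⟩ := Metric.isOpen_iff.1 hU x hx
  have hx1' : (1:ℝ) < x := hx1
  have h3 := lower hb hx1'.le (show x < x + ε by linarith) hσ hσ2
  rw [eq_top_iff, ← h3]
  apply measure_mono
  rintro y ⟨hy1, hy2⟩
  refine ⟨hball ?_, by linarith [hy2.1], AI_of_VC hy1⟩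
  rw [Metric.mem_ball, Real.dist_eq, abs_of_pos (by linarith [hy2.1])]
  linarith [hy2.2]

theorem dimH_zero {S : Set ℝ} (h : LM 3 S = 0) : dimH S = 0 := by
  refine le_antisymm ?_ bot_le
  refine le_of_forall_gt_imp_ge_of_dense fun d hd => ?_
  rcases eq_or_ne d ⊤ with rfl | hdt
  · exact le_top
  lift d to ℝ≥0 using hdt
  have hd0 : 0 < (d:ℝ) := by exact_mod_cast hd
  apply dimH_le_of_hausdorffMeasure_ne_top
  have hc : 0 < (3 / (d:ℝ)) ^ 3 := by positivity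
  have hle : (fun r : ℝ≥0∞ => r ^ (d:ℝ)) ≤ᶠ[𝓝[≥] 0] ENNReal.ofReal ((3 / (d:ℝ)) ^ 3) •
      (fun r : ℝ≥0∞ => ENNReal.ofReal (lg 3 r.toReal)) := by
    have h1 : ∀ᶠ r : ℝ≥0∞ in 𝓝[≥] 0, r < 1 := eventually_nhdsWithin_of_eventually_nhds
      (gt_mem_nhds one_pos)
    filter_upwards [h1] with r hr
    simp only [Pi.smul_apply, smul_eq_mul]
    rcases eq_or_ne r 0 with rfl | hr0
    · rw [ENNReal.zero_rpow_of_pos hd0]
      exact bot_le
    have hrt : r ≠ ⊤ := (hr.trans ENNReal.one_lt_top).ne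
    have hr0' : 0 < r.toReal := ENNReal.toReal_pos hr0 hrt
    have hr1' : r.toReal < 1 := by
      have := (ENNReal.toReal_lt_toReal hrt ENNReal.one_ne_top).2 hr
      simpa using this
    set ρ := r.toReal with hρ
    have e1 : r = ENNReal.ofReal ρ := (ENNReal.ofReal_toReal hrt).symm
    rw [e1, ENNReal.ofReal_rpow_of_pos hr0', ← ENNReal.ofReal_mul hc.le]
    apply ENNReal.ofReal_le_ofReal
    have hlog : 0 < -Real.log ρ := by linarith [Real.log_neg hr0' hr1']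
    have h2 : -Real.log ρ ≤ ρ ^ (-((d:ℝ) / 3)) / ((d:ℝ) / 3) := by
      have h3 := Real.log_le_rpow_div (x := ρ⁻¹) (by positivity) (ε := (d:ℝ) / 3) (by positivity)
      rw [Real.log_inv, Real.inv_rpow hr0'.le, ← Real.rpow_neg hr0'.le] at h3
      exact h3
    have h3 : (-Real.log ρ) ^ 3 ≤ ρ ^ (-(d:ℝ)) * (3 / (d:ℝ)) ^ 3 := by
      calc (-Real.log ρ) ^ 3 ≤ (ρ ^ (-((d:ℝ) / 3)) / ((d:ℝ) / 3)) ^ 3 := by gcongr
        _ = (ρ ^ (-((d:ℝ) / 3))) ^ 3 * (3 / (d:ℝ)) ^ 3 := by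
            rw [div_pow, div_pow, div_pow]
            field_simp
        _ = ρ ^ (-(d:ℝ)) * (3 / (d:ℝ)) ^ 3 := by
            rw [← Real.rpow_natCast (ρ ^ (-((d:ℝ) / 3))) 3, ← Real.rpow_mul hr0'.le]
            congr 2
            push_cast
            ring
    unfold lg
    have h4 : (-Real.log ρ) ^ (-(3:ℝ)) = ((-Real.log ρ) ^ 3)⁻¹ := by
      rw [Real.rpow_neg hlog.le]
      norm_num
    rw [h4, ← div_eq_mul_inv, le_div_iff₀ (by positivity)]
    calc ρ ^ (d:ℝ) * (-Real.log ρ) ^ 3 ≤ ρ ^ (d:ℝ) * (ρ ^ (-(d:ℝ)) * (3 / (d:ℝ)) ^ 3) := by gcongr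
      _ = (ρ ^ (d:ℝ) * ρ ^ (-(d:ℝ))) * (3 / (d:ℝ)) ^ 3 := by ring
      _ = (3 / (d:ℝ)) ^ 3 := by
          rw [← Real.rpow_add hr0', add_neg_cancel, Real.rpow_zero, one_mul]
  have h1 := Measure.mkMetric_mono_smul (X := ℝ) ENNReal.ofReal_ne_top
    (by simpa using hc : ENNReal.ofReal ((3 / (d:ℝ)) ^ 3) ≠ 0) hle
  have h2 := h1 S
  rw [Measure.smul_apply] at h2
  have h3 : Measure.mkMetric (fun r : ℝ≥0∞ => ENNReal.ofReal (lg 3 r.toReal)) S = 0 := h
  rw [h3, smul_zero] at h2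
  have h4 : μH[(d:ℝ)] S = 0 := le_antisymm h2 bot_le
  rw [h4]
  exact ENNReal.zero_ne_top

end Pool.Agent.R485.LB
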