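import Pool.Agent.R485.LB.Gauge
import Pool.Agent.H491R3.PE.Near

set_option autoImplicit false

/-! The upper bound for the gauge measures. -/

namespace Pool.Agent.R485.LB

open Set Filter Topology MeasureTheory Pool.Agent.H491R3.PE
open scoped ENNReal NNReal

/-- The gauge measure. -/
noncomputable def LM (σ : ℝ) : Measure ℝ :=
  Measure.mkMetric (fun d : ℝ≥0∞ => ENNReal.ofReal (lg σ d.toReal))

lemma lg_zero {σ : ℝ} (hσ : 0 < σ) : lg σ 0 = 0 := by
  unfold lg
  rw [Real.log_zero, neg_zero, Real.zero_rpow (by linarith)]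

lemma LM_singleton {σ : ℝ} (hσ : 0 < σ) (x : ℝ) : LM σ {x} = 0 := by
  have h := Measure.mkMetric_le_liminf_tsum (β := ℕ) (ι := fun _ => Unit) ({x} : Set ℝ) (l := atTop)
    (fun _ => 0) tendsto_const_nhds (fun _ _ => {x}) (Eventually.of_forall fun n i => by simp)
    (Eventually.of_forall fun n => by simp) (fun d : ℝ≥0∞ => ENNReal.ofReal (lg σ d.toReal))
  refine le_antisymm (h.trans ?_) bot_le
  simp [lg_zero hσ]

lemma LM_countable {σ : ℝ} (hσ : 0 < σ) {S : Set ℝ} (hS : S.Countable) : LM σ S = 0 := by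
  have h : S = ⋃ x ∈ S, {x} := by simp
  rw [h]
  exact (measure_biUnion_null_iff hS).2 fun x _ => LM_singleton hσ x

lemma SS_far {a b B : ℝ} (ha : 1 < a) (hb : 1 < b) (haB : a < B) (h : (SS a b).Infinite) {M : ℕ}
    (hM : Real.log (2 * B) / Real.log b ≤ M) (N : ℕ) :
    ∃ p ∈ SS a b, N ≤ p.1 ∧ p.2 ≤ M * p.1 := by
  have hLb : 0 < Real.log b := Real.log_pos hb
  have key : ∀ p ∈ SS a b, b ^ p.2 < 2 * a ^ p.1 := by
    intro p hp
    have h1 := hp.2
    have h2 : (1:ℝ) ≤ a ^ p.1 := one_le_pow₀ ha.le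
    have h3 : |a ^ p.1 - b ^ p.2| ^ 2 < (a ^ p.1) ^ 2 := by nlinarith
    have h4 := lt_of_pow_lt_pow_left₀ 2 (by linarith) h3
    rw [abs_lt] at h4
    linarith [h4.1]
  have key2 : ∀ p ∈ SS a b, 1 ≤ p.1 → p.2 ≤ M * p.1 := by
    intro p hp hp1
    have h1 := key p hp
    have h2 : b ^ p.2 < (2 * B) ^ p.1 := by
      refine h1.trans_le ?_
      rw [mul_pow]
      have h3 : (2:ℝ) ≤ 2 ^ p.1 := by
        calc (2:ℝ) = 2 ^ 1 := by norm_num
          _ ≤ 2 ^ p.1 := pow_le_pow_right₀ (by norm_num) hp1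
      have h4 : a ^ p.1 ≤ B ^ p.1 := by gcongr
      gcongr
    have h3 := Real.log_lt_log (by positivity) h2
    rw [Real.log_pow, Real.log_pow] at h3
    rw [div_le_iff₀ hLb] at hM
    have h4 : (p.2:ℝ) * Real.log b ≤ (M * p.1 : ℝ) * Real.log b := by
      have : (p.1:ℝ) * Real.log (2 * B) ≤ p.1 * (M * Real.log b) := by gcongr
      nlinarith
    have h5 := le_of_mul_le_mul_right h4 hLb
    exact_mod_cast h5
  by_contra hcon
  push Not at hcon
  apply h
  obtain ⟨K, hK⟩ := pow_unbounded_of_one_lt (2 * a ^ (N + 1)) hb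
  refine ((finite_Iio (N + 1)).prod (finite_Iio K)).subset ?_
  intro p hp
  have h1 : p.1 < N + 1 := by
    by_contra h2
    push Not at h2
    have h3 := hcon p hp (by omega)
    have h4 := key2 p hp (by omega)
    omega
  refine ⟨h1, ?_⟩
  by_contra h2
  have h2' : K ≤ p.2 := by simpa using h2
  have h3 := key p hp
  have h4 : b ^ K ≤ b ^ p.2 := pow_le_pow_right₀ hb.le h2'
  have h5 : a ^ p.1 ≤ a ^ (N + 1) := pow_le_pow_right₀ ha.le h1.le
  linarith

theorem upper {b A B σ : ℝ} (hb : 1 < b) (hA : 1 < A) (hAB : A < B) (hσ : 2 < σ) :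
    LM σ {a | a ∈ Ioo A B ∧ (SS a b).Infinite} = 0 := by
  have hLb : 0 < Real.log b := Real.log_pos hb
  have hLA : 0 < Real.log A := Real.log_pos hA
  have hσ0 : 0 < σ := by linarith
  have hsA : 1 < √A := sqrt_gt hA
  have hsA0 : 0 < √A := by linarith
  have hB : 1 < B := by linarith
  obtain ⟨M, hM⟩ := exists_nat_ge (Real.log (2 * B) / Real.log b)
  set c : ℝ := Real.log A / 4 with hc
  have hc0 : 0 < c := by positivity
  set cen : ℕ → ℕ → ℝ := fun n m => Real.exp ((m:ℝ) / n * Real.log b) with hcen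
  set ρ : ℕ → ℝ := fun n => 6 * B / √A ^ n with hρ
  have hρ0 : ∀ n, 0 < ρ n := fun n => by rw [hρ]; positivity
  set t : ℕ → ℕ × ℕ → Set ℝ := fun N p => if p.2 ≤ M * (p.1 + N) then
    Icc (cen (p.1 + N) p.2 - ρ (p.1 + N)) (cen (p.1 + N) p.2 + ρ (p.1 + N)) else ∅ with ht
  have hpow : Tendsto (fun n : ℕ => √A ^ n) atTop atTop := tendsto_pow_atTop_atTop_of_one_lt hsA
  have hρt : Tendsto ρ atTop (𝓝 0) := hpow.const_div_atTop _
  have hρanti : ∀ n n' : ℕ, n ≤ n' → ρ n' ≤ ρ n := by
    intro n n' h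
    rw [hρ]
    simp only
    gcongr
    exact hsA.le
  -- the diameters
  have hdiam : ∀ N p, Metric.ediam (t N p) ≤ ENNReal.ofReal (2 * ρ N) := by
    intro N p
    rw [ht]
    simp only
    split_ifs
    · rw [Real.ediam_Icc]
      apply ENNReal.ofReal_le_ofReal
      linarith [hρanti N (p.1 + N) (by omega)]
    · simp
  have hr : Tendsto (fun N : ℕ => ENNReal.ofReal (2 * ρ N)) atTop (𝓝 0) := by
    have := ENNReal.tendsto_ofReal (hρt.const_mul 2)
    simpa using this
  -- the covering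
  have hcov : ∀ᶠ N : ℕ in atTop, {a | a ∈ Ioo A B ∧ (SS a b).Infinite} ⊆ ⋃ i, t N i := by
    filter_upwards [hpow.eventually_gt_atTop 2, eventually_ge_atTop 1] with N hN hN1
    rintro a ⟨ha, hinf⟩
    have ha1 : 1 < a := hA.trans ha.1
    obtain ⟨p, hp, hpN, hpM⟩ := SS_far ha1 hb ha.2 hinf hM N
    have hn1 : 1 ≤ p.1 := hN1.trans hpN
    have hn0 : (1:ℝ) ≤ p.1 := by exact_mod_cast hn1
    have h1 : √A ^ p.1 ≤ √a ^ p.1 := by
      have : √A ≤ √a := Real.sqrt_le_sqrt ha.1.le
      gcongr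
    have h2 : √A ^ N ≤ √A ^ p.1 := pow_le_pow_right₀ hsA.le hpN
    have h3 := approxS ha1 hb hp (by linarith)
    have hδ : |Real.log a - (p.2:ℝ) / p.1 * Real.log b| ≤ 2 / √A ^ p.1 := by
      have e1 : Real.log a - (p.2:ℝ) / p.1 * Real.log b =
          ((p.1:ℝ) * Real.log a - p.2 * Real.log b) / p.1 := by field_simp
      rw [e1, abs_div, abs_of_pos (by linarith : (0:ℝ) < p.1), div_le_iff₀ (by linarith)]
      calc |(p.1:ℝ) * Real.log a - p.2 * Real.log b| ≤ 2 / √a ^ p.1 := h3
        _ ≤ 2 / √A ^ p.1 := by gcongr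
        _ ≤ 2 / √A ^ p.1 * p.1 := le_mul_of_one_le_right (by positivity) hn0
    have hδ1 : 2 / √A ^ p.1 ≤ 1 := by
      rw [div_le_one (by positivity)]
      linarith
    set y := (p.2:ℝ) / p.1 * Real.log b with hy
    have ha0 : 0 < a := by linarith
    have h4 : |a - Real.exp y| ≤ ρ p.1 := by
      have h5 := abs_le.1 hδ
      have e1 : Real.exp y ≤ 3 * B := by
        have h6 : y ≤ Real.log B + 1 := by
          have := Real.log_le_log ha0 ha.2.le
          linarith
        calc Real.exp y ≤ Real.exp (Real.log B + 1) := Real.exp_le_exp.2 h6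
          _ = B * Real.exp 1 := by rw [Real.exp_add, Real.exp_log (by linarith)]
          _ ≤ B * 3 := by
              gcongr
              linarith [Real.exp_one_lt_d9]
          _ = 3 * B := by ring
      have e2 : a * (1 - Real.exp (y - Real.log a)) = a - Real.exp y := by
        rw [mul_sub, mul_one, Real.exp_sub, Real.exp_log ha0]
        field_simp
      have e3 : Real.exp y * (1 - Real.exp (Real.log a - y)) = Real.exp y - a := by
        rw [mul_sub, mul_one, Real.exp_sub, Real.exp_log ha0]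
        field_simp
      have hρe : ρ p.1 = 3 * B * (2 / √A ^ p.1) := by
        rw [hρ]
        simp only
        ring
      rw [hρe, abs_le]
      have h7 := Real.add_one_le_exp (y - Real.log a)
      have h8 := Real.add_one_le_exp (Real.log a - y)
      have hd0 : 0 ≤ 2 / √A ^ p.1 := by positivity
      constructor
      · -- `exp y - a ≤ 3 B δ`
        have h9 : Real.exp y - a ≤ Real.exp y * (2 / √A ^ p.1) := by
          rw [← e3]
          exact mul_le_mul_of_nonneg_left (by linarith) (Real.exp_pos _).le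
        have h10 : Real.exp y * (2 / √A ^ p.1) ≤ 3 * B * (2 / √A ^ p.1) := by gcongr
        linarith
      · have h9 : a - Real.exp y ≤ a * (2 / √A ^ p.1) := by
          rw [← e2]
          exact mul_le_mul_of_nonneg_left (by linarith) ha0.le
        have h10 : a * (2 / √A ^ p.1) ≤ 3 * B * (2 / √A ^ p.1) := by
          gcongr
          linarith [ha.2]
        linarith
    rw [mem_iUnion]
    refine ⟨(p.1 - N, p.2), ?_⟩
    have e1 : p.1 - N + N = p.1 := by omega
    rw [ht]
    simp only [e1, if_pos hpM]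
    rw [abs_le] at h4
    constructor <;> linarith [h4.1, h4.2]
  have hle := Measure.mkMetric_le_liminf_tsum (β := ℕ) (ι := fun _ => ℕ × ℕ)
    {a | a ∈ Ioo A B ∧ (SS a b).Infinite} (l := atTop) (fun N : ℕ => ENNReal.ofReal (2 * ρ N)) hr t
    (Eventually.of_forall hdiam) hcov (fun d : ℝ≥0∞ => ENNReal.ofReal (lg σ d.toReal))
  refine le_antisymm (hle.trans ?_) bot_le
  -- the sum
  set K : ℝ := (M + 1) * c ^ (-σ) with hK
  have hK0 : 0 < K := by positivity
  set g : ℕ → ℝ≥0∞ := fun n => ENNReal.ofReal (K * (n:ℝ) ^ (1 - σ)) with hg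
  have hgs : ∑' n, g n ≠ ⊤ := by
    have : Summable fun n : ℕ => K * (n:ℝ) ^ (1 - σ) :=
      (Real.summable_nat_rpow.2 (by linarith)).mul_left K
    exact this.tsum_ofReal_ne_top
  have hgt := ENNReal.tendsto_sum_nat_add g hgs
  have hbd : ∀ᶠ N : ℕ in atTop, ∑' p : ℕ × ℕ, ENNReal.ofReal (lg σ (Metric.ediam (t N p)).toReal) ≤
      ∑' k, g (k + N) := by
    have hev : ∀ᶠ N : ℕ in atTop, Real.log (12 * B) ≤ c * N :=
      (tendsto_natCast_atTop_atTop.const_mul_atTop hc0).eventually_ge_atTop _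
    filter_upwards [hev, eventually_ge_atTop 1] with N hN hN1
    have hprod := ENNReal.tsum_prod
      (f := fun k m : ℕ => ENNReal.ofReal (lg σ (Metric.ediam (t N (k, m))).toReal))
    refine (le_of_eq hprod).trans (ENNReal.tsum_le_tsum fun k => ?_)
    have hn : N ≤ k + N := by omega
    set n := k + N with hn'
    have hn1 : (1:ℝ) ≤ n := by exact_mod_cast (hN1.trans hn)
    have hnN : (N:ℝ) ≤ n := by exact_mod_cast hn
    have hlog : c * n ≤ -Real.log (2 * ρ n) := by
      have e1 : 2 * ρ n = 12 * B / √A ^ n := by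
        rw [hρ]
        simp only
        ring
      rw [e1, Real.log_div (by positivity) (by positivity), Real.log_pow,
        Real.log_sqrt (by linarith)]
      have : c * N ≤ c * n := by gcongr
      have e2 : (n:ℝ) * (Real.log A / 2) = 2 * (c * n) := by
        rw [hc]
        ring
      rw [e2]
      linarith
    have hlg : lg σ (2 * ρ n) ≤ (c * n) ^ (-σ) :=
      Real.rpow_le_rpow_of_nonpos (by positivity) hlog (by linarith)
    have hterm : ∀ m, ENNReal.ofReal (lg σ (Metric.ediam (t N (k, m))).toReal) ≤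
        if m ∈ Finset.range (M * n + 1) then ENNReal.ofReal ((c * n) ^ (-σ)) else 0 := by
      intro m
      rw [ht]
      simp only
      rw [← hn']
      by_cases hm : m ≤ M * n
      · rw [if_pos hm, if_pos (Finset.mem_range.2 (by omega)), Real.ediam_Icc]
        have e1 : cen n m + ρ n - (cen n m - ρ n) = 2 * ρ n := by ring
        rw [e1, ENNReal.toReal_ofReal (by linarith [hρ0 n])]
        exact ENNReal.ofReal_le_ofReal hlg
      · rw [if_neg hm]
        simp [lg_zero hσ0]
    refine (ENNReal.tsum_le_tsum hterm).trans ?_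
    rw [tsum_eq_sum (s := Finset.range (M * n + 1)) (fun m hm => if_neg hm)]
    rw [Finset.sum_congr rfl (fun m hm => if_pos hm), Finset.sum_const, Finset.card_range,
      nsmul_eq_mul, ← ENNReal.ofReal_natCast, ← ENNReal.ofReal_mul (by positivity)]
    apply ENNReal.ofReal_le_ofReal
    have hn0 : (0:ℝ) < n := by linarith
    rw [Real.mul_rpow hc0.le hn0.le, hK]
    have e1 : (n:ℝ) ^ (1 - σ) = n * (n:ℝ) ^ (-σ) := by
      rw [sub_eq_add_neg, Real.rpow_add hn0, Real.rpow_one]
    rw [e1]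
    push_cast
    have h1 : ((M:ℝ) * n + 1) ≤ (M + 1) * n := by nlinarith
    calc ((M:ℝ) * n + 1) * (c ^ (-σ) * (n:ℝ) ^ (-σ))
        ≤ ((M + 1) * n) * (c ^ (-σ) * (n:ℝ) ^ (-σ)) :=
          mul_le_mul_of_nonneg_right h1 (by positivity)
      _ = _ := by ring
  calc liminf (fun N => ∑' p : ℕ × ℕ, ENNReal.ofReal (lg σ (Metric.ediam (t N p)).toReal)) atTop
      ≤ liminf (fun N => ∑' k, g (k + N)) atTop := liminf_le_liminf hbd
    _ = 0 := hgt.liminf_eq

end Pool.Agent.R485.LB
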